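import Mathlib

/-!
# Colourings given by the signs of polynomials: definitions
-/

set_option autoImplicit false

namespace Run7.h64.SR

open Finset

/-- The value of the polynomial `P` in the coordinates of `r` points of `ℝ^d` at the points
`p (v 0), …, p (v (r - 1))`. -/
noncomputable def valueAt {r d : ℕ} (P : MvPolynomial (Fin r × Fin d) ℝ) (p : ℕ → Fin d → ℝ)
    (v : Fin r → ℕ) : ℝ :=
  MvPolynomial.eval (fun z => p (v z.1) z.2) P

/-- The colours of the `r`-subsets `v 0 < … < v (r - 1)` of `{0, …, N - 1}` only depend on the truth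
values of the inequalities `0 ≤ P j (p (v 0), …, p (v (r - 1)))`. -/
def SignColouring {κ : Type} {r d t : ℕ} (c : Finset ℕ → κ) (N : ℕ) (p : ℕ → Fin d → ℝ)
    (P : Fin t → MvPolynomial (Fin r × Fin d) ℝ) : Prop :=
  ∀ v w : Fin r → ℕ, StrictMono v → StrictMono w → (∀ i, v i < N) → (∀ i, w i < N) →
    (∀ j, 0 ≤ valueAt (P j) p v ↔ 0 ≤ valueAt (P j) p w) →
    c (univ.image v) = c (univ.image w)

/-- In every monomial of `P` there is at most one point whose coordinates occur with total degree
greater than one. -/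
def NearlyMultiaffine {r d : ℕ} (P : MvPolynomial (Fin r × Fin d) ℝ) : Prop :=
  ∀ m ∈ P.support, ∀ i i' : Fin r, i ≠ i' → ∑ e, m (i, e) ≤ 1 ∨ ∑ e, m (i', e) ≤ 1

end Run7.h64.SR
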