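import Pool.Agent.Run7.h64.SR.Defs
import Pool.Agent.Run7.h64.SR.PolyDefs

/-!
# Links of colourings given by the signs of polynomials
-/

set_option autoImplicit false

namespace Run7.h64.SR

open Finset

theorem exists_eps (T : Finset (ℕ × ℕ)) (g : ℕ → ℕ → ℝ) :
    ∃ ε : ℝ, 0 < ε ∧ ∀ z ∈ T, g z.1 z.2 < 0 → g z.1 z.2 + ε < 0 := by
  classical
  induction T using Finset.induction_on with
  | empty => exact ⟨1, one_pos, by simp⟩
  | insert z T _ ih =>
    obtain ⟨ε, hε, h⟩ := ih
    by_cases hz : g z.1 z.2 < 0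
    · refine ⟨min ε (-(g z.1 z.2) / 2), lt_min hε (by linarith), ?_⟩
      intro w hw hw0
      rcases mem_insert.1 hw with rfl | hw
      · have := min_le_right ε (-(g w.1 w.2) / 2)
        linarith
      · have := min_le_left ε (-(g z.1 z.2) / 2)
        linarith [h w hw hw0]
    · refine ⟨ε, hε, ?_⟩
      intro w hw hw0
      rcases mem_insert.1 hw with rfl | hw
      · exact absurd hw0 hz
      · exact h w hw hw0

/-- sign rank of `0 ≤ f` when `f` is a sum of products -/
theorem signRankLE_of_sum {ι : Type} [Fintype ι] {D : ℕ} (hD : Fintype.card ι = D)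
    (V : Finset ℕ) (f : ℕ → ℕ → ℝ) (a b : ℕ → ι → ℝ) (i₀ : ι) (h₀ : ∀ x, a x i₀ = 1)
    (hf : ∀ x y, f x y = ∑ i, a x i * b y i) :
    SignRankLE (fun x y => 0 ≤ f x y) V D := by
  classical
  obtain ⟨ε, hε, h⟩ := exists_eps (V ×ˢ V) f
  let e : ι ≃ Fin D := Fintype.equivFinOfCardEq hD
  refine ⟨fun x i => a x (e.symm i), fun y i => b y (e.symm i) + if e.symm i = i₀ then ε else 0, ?_⟩
  intro x hx y hy hxy
  have hsum : ∑ i : Fin D, a x (e.symm i) * (b y (e.symm i) + if e.symm i = i₀ then ε else 0) =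
      f x y + ε := by
    rw [Equiv.sum_comp e.symm (fun i => a x i * (b y i + if i = i₀ then ε else 0))]
    simp only [mul_add, sum_add_distrib, mul_ite, mul_zero, sum_ite_eq', mem_univ, if_true, h₀,
      one_mul]
    rw [hf]
  refine ⟨fun h1 => ?_, fun h1 => ?_⟩
  · rw [hsum]
    have h2 : 0 ≤ f x y := h1
    linarith
  · rw [hsum]
    exact h (x, y) (mem_product.2 ⟨hx, hy⟩) (not_le.1 h1)

/-- monomials of degree at most one -/
def mon {d : ℕ} (u : Fin d → ℝ) : Option (Fin d) → ℝ
  | none => 1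
  | some e => u e

theorem exists_mon {d : ℕ} (m : Fin d → ℕ) (hm : ∑ e, m e ≤ 1) :
    ∃ o : Option (Fin d), ∀ u : Fin d → ℝ, ∏ e, u e ^ m e = mon u o := by
  classical
  by_cases h : ∃ e, m e ≠ 0
  · obtain ⟨e, he⟩ := h
    refine ⟨some e, fun u => ?_⟩
    have h1 : m e + ∑ x ∈ univ.erase e, m x = ∑ x, m x := add_sum_erase univ m (mem_univ e)
    have h2 : ∀ x ∈ univ.erase e, m x = 0 := by
      have h3 : ∑ x ∈ univ.erase e, m x = 0 := by omega
      exact fun x hx => (sum_eq_zero_iff.1 h3) x hx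
    have h4 : m e = 1 := by omega
    rw [← mul_prod_erase univ _ (mem_univ e), h4, pow_one]
    rw [prod_eq_one fun x hx => by rw [h2 x hx, pow_zero], mul_one]
    rfl
  · push Not at h
    refine ⟨none, fun u => ?_⟩
    rw [prod_eq_one fun x _ => by rw [h x, pow_zero]]
    rfl

/-- The value of a polynomial as a function of the first two points. -/
theorem valueAt_cons {s d : ℕ} (P : MvPolynomial (Fin (s + 2) × Fin d) ℝ) (p : ℕ → Fin d → ℝ)
    (w : Fin s → ℕ) (x y : ℕ) :
    valueAt P p (Fin.cons x (Fin.cons y w)) = ∑ m ∈ P.support, P.coeff m *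
      ((∏ e, p x e ^ m (0, e)) * ((∏ e, p y e ^ m (1, e)) *
        ∏ i : Fin s, ∏ e, p (w i) e ^ m (i.succ.succ, e))) := by
  unfold valueAt
  rw [MvPolynomial.eval_eq']
  refine sum_congr rfl fun m _ => ?_
  congr 1
  rw [Fintype.prod_prod_type, Fin.prod_univ_succ, Fin.prod_univ_succ]
  rfl

theorem signRankLE_valueAt {s d : ℕ} (P : MvPolynomial (Fin (s + 2) × Fin d) ℝ)
    (hP : NearlyMultiaffine P) (p : ℕ → Fin d → ℝ) (w : Fin s → ℕ) (V : Finset ℕ) :
    SignRankLE (fun x y => 0 ≤ valueAt P p (Fin.cons x (Fin.cons y w))) V (2 * (d + 1)) := by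
  classical
  -- the monomials of degree at most one in the first point
  set M := P.support.filter fun m => ∑ e, m (0, e) ≤ 1 with hM
  set M' := P.support.filter fun m => ¬ ∑ e, m (0, e) ≤ 1 with hM'
  have hM1 : ∀ m : Fin (s + 2) × Fin d →₀ ℕ, ∃ o : Option (Fin d), (∑ e, m (0, e) ≤ 1) →
      ∀ u : Fin d → ℝ, ∏ e, u e ^ m (0, e) = mon u o := by
    intro m
    by_cases h : ∑ e, m (0, e) ≤ 1
    · obtain ⟨o, ho⟩ := exists_mon (fun e => m (0, e)) h
      exact ⟨o, fun _ => ho⟩
    · exact ⟨none, fun h' => absurd h' h⟩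
  have hM2 : ∀ m : Fin (s + 2) × Fin d →₀ ℕ, ∃ o : Option (Fin d), (∑ e, m (1, e) ≤ 1) →
      ∀ u : Fin d → ℝ, ∏ e, u e ^ m (1, e) = mon u o := by
    intro m
    by_cases h : ∑ e, m (1, e) ≤ 1
    · obtain ⟨o, ho⟩ := exists_mon (fun e => m (1, e)) h
      exact ⟨o, fun _ => ho⟩
    · exact ⟨none, fun h' => absurd h' h⟩
  choose o ho using hM1
  choose o' ho' using hM2
  let rest : (Fin (s + 2) × Fin d →₀ ℕ) → ℝ := fun m =>
    ∏ i : Fin s, ∏ e, p (w i) e ^ m (i.succ.succ, e)
  let a : ℕ → Bool × Option (Fin d) → ℝ := fun x z =>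
    if z.1 = true then mon (p x) z.2 else
      ∑ m ∈ M', if o' m = z.2 then P.coeff m * (∏ e, p x e ^ m (0, e)) * rest m else 0
  let b : ℕ → Bool × Option (Fin d) → ℝ := fun y z =>
    if z.1 = true then ∑ m ∈ M, if o m = z.2 then P.coeff m * (∏ e, p y e ^ m (1, e)) * rest m else 0
      else mon (p y) z.2
  refine signRankLE_of_sum (ι := Bool × Option (Fin d)) (by simp) V _ a b (true, none)
    (fun x => rfl) ?_
  intro x y
  rw [valueAt_cons, Fintype.sum_prod_type, Fintype.sum_bool]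
  have hsplit : ∀ F : (Fin (s + 2) × Fin d →₀ ℕ) → ℝ,
      ∑ m ∈ P.support, F m = ∑ m ∈ M, F m + ∑ m ∈ M', F m := fun F =>
    (sum_filter_add_sum_filter_not _ _ _).symm
  rw [hsplit]
  congr 1
  · show _ = ∑ z : Option (Fin d), mon (p x) z *
      ∑ m ∈ M, if o m = z then P.coeff m * (∏ e, p y e ^ m (1, e)) * rest m else 0
    simp only [mul_sum]
    rw [sum_comm]
    refine sum_congr rfl fun m hm => ?_
    rw [sum_eq_single (o m)]
    · rw [if_pos rfl, ho m (mem_filter.1 hm).2 (p x)]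
      ring
    · intro z _ hz
      rw [if_neg (Ne.symm hz), mul_zero]
    · intro h
      exact absurd (mem_univ _) h
  · show _ = ∑ z : Option (Fin d), (∑ m ∈ M', if o' m = z then
      P.coeff m * (∏ e, p x e ^ m (0, e)) * rest m else 0) * mon (p y) z
    simp only [sum_mul]
    rw [sum_comm]
    refine sum_congr rfl fun m hm => ?_
    have hm1 : ∑ e, m (1, e) ≤ 1 := by
      rcases hP m (mem_filter.1 hm).1 0 1 (by simp) with h | h
      · exact absurd h (mem_filter.1 hm).2
      · exact h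
    rw [sum_eq_single (o' m)]
    · rw [if_pos rfl, ho' m hm1 (p y)]
      ring
    · intro z _ hz
      rw [if_neg (Ne.symm hz), zero_mul]
    · intro h
      exact absurd (mem_univ _) h

/-- cubic polynomials -/
theorem nearlyMultiaffine_of_totalDegree_le {r d : ℕ} {P : MvPolynomial (Fin r × Fin d) ℝ}
    (hP : P.totalDegree ≤ 3) : NearlyMultiaffine P := by
  classical
  intro m hm i i' hii
  by_contra hcon
  push Not at hcon
  have h1 : m.sum (fun _ e => e) ≤ 3 := (MvPolynomial.le_totalDegree hm).trans hP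
  rw [Finsupp.sum_fintype _ _ (fun _ => rfl), Fintype.sum_prod_type] at h1
  have h2 : ∑ e, m (i, e) + ∑ e, m (i', e) ≤ ∑ i, ∑ e, m (i, e) := by
    rw [← add_sum_erase univ (fun i => ∑ e, m (i, e)) (mem_univ i)]
    apply Nat.add_le_add_left
    exact single_le_sum (f := fun i => ∑ e, m (i, e)) (fun _ _ => Nat.zero_le _)
      (mem_erase.2 ⟨hii.symm, mem_univ _⟩)
  omega

theorem strictMono_cons {n a : ℕ} {f : Fin n → ℕ} (h : ∀ i, a < f i) (hf : StrictMono f) :
    StrictMono (Fin.cons a f : Fin (n + 1) → ℕ) := by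
  intro i j hij
  revert hij
  refine Fin.cases ?_ (fun i => ?_) i
  · refine Fin.cases ?_ (fun j => ?_) j
    · intro h1
      exact absurd h1 (lt_irrefl _)
    · intro _
      exact h j
  · refine Fin.cases ?_ (fun j => ?_) j
    · intro h1
      exact absurd h1 (by simp)
    · intro h1
      exact hf (Fin.succ_lt_succ_iff.1 h1)

/-- The links of colourings given by the signs of polynomials. -/
theorem linkSignRank_of_signColouring {κ : Type} {s d t N : ℕ} {c : Finset ℕ → κ}
    {p : ℕ → Fin d → ℝ} {P : Fin t → MvPolynomial (Fin (s + 2) × Fin d) ℝ}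
    (hc : SignColouring c N p P) (hP : ∀ j, NearlyMultiaffine (P j)) (U : Finset ℕ)
    (hU : U ⊆ range N) (S : Finset ℕ) (hS : S ⊆ range N) (hSc : S.card = s)
    (hlt : ∀ u ∈ U, ∀ w ∈ S, u < w) :
    LinkSignRank c U S (fun _ : Fin t => 2 * (d + 1)) := by
  classical
  set e := S.orderEmbOfFin hSc with he
  have hem : StrictMono (e : Fin s → ℕ) := e.strictMono
  have heS : ∀ i, e i ∈ S := fun i => S.orderEmbOfFin_mem hSc i
  have himg : univ.image (e : Fin s → ℕ) = S := by
    apply eq_of_subset_of_card_le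
    · intro x hx
      obtain ⟨i, -, rfl⟩ := mem_image.1 hx
      exact heS i
    · rw [card_image_of_injective _ e.injective, card_univ, Fintype.card_fin, hSc]
  refine ⟨fun j x y => 0 ≤ valueAt (P j) p (Fin.cons x (Fin.cons y (e : Fin s → ℕ))), fun j =>
    signRankLE_valueAt (P j) (hP j) p e U, ?_⟩
  have hmono : ∀ x ∈ U, ∀ y ∈ U, x < y →
      StrictMono (Fin.cons x (Fin.cons y (e : Fin s → ℕ)) : Fin (s + 2) → ℕ) := by
    intro x hx y hy hxy
    apply strictMono_cons
    · intro i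
      refine Fin.cases ?_ (fun i => ?_) i
      · exact hxy
      · exact hlt x hx _ (heS i)
    · exact strictMono_cons (fun i => hlt y hy _ (heS i)) hem
  have himage : ∀ x y : ℕ, univ.image (Fin.cons x (Fin.cons y (e : Fin s → ℕ)) : Fin (s + 2) → ℕ) =
      insert x (insert y S) := by
    intro x y
    ext z
    simp only [mem_image, mem_univ, true_and, mem_insert, ← himg]
    constructor
    · rintro ⟨i, rfl⟩
      refine Fin.cases ?_ (fun i => ?_) i
      · left; rfl
      · refine Fin.cases ?_ (fun i => ?_) i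
        · right; left; rfl
        · right; right; exact ⟨i, rfl⟩
    · rintro (rfl | rfl | ⟨i, rfl⟩)
      · exact ⟨0, rfl⟩
      · exact ⟨1, rfl⟩
      · exact ⟨i.succ.succ, rfl⟩
  have hlt' : ∀ x ∈ U, ∀ y ∈ U, ∀ i,
      (Fin.cons x (Fin.cons y (e : Fin s → ℕ)) : Fin (s + 2) → ℕ) i < N := by
    intro x hx y hy i
    refine Fin.cases ?_ (fun i => ?_) i
    · exact mem_range.1 (hU hx)
    · refine Fin.cases ?_ (fun i => ?_) i
      · exact mem_range.1 (hU hy)
      · exact mem_range.1 (hS (heS i))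
  intro x hx y hy hxy x' hx' y' hy' hxy' h
  rw [← himage, ← himage]
  exact hc _ _ (hmono x hx y hy hxy) (hmono x' hx' y' hy' hxy') (hlt' x hx y hy) (hlt' x' hx' y' hy')
    h

end Run7.h64.SR
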