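import Pool.Agent.TH138.NF.Defs

/-!
# Relations of bounded sign rank and links of colourings: definitions
-/

set_option autoImplicit false

namespace Run7.h64.SR

open Finset

/-- The relation `R` on the pairs `x < y` of elements of `V` has sign rank at most `d`: there are
vectors `a x`, `b y` in the `d`-dimensional space whose scalar product is positive if `R x y` holds
and negative if it does not. -/
def SignRankLE (R : ℕ → ℕ → Prop) (V : Finset ℕ) (d : ℕ) : Prop :=
  ∃ a b : ℕ → Fin d → ℝ, ∀ x ∈ V, ∀ y ∈ V, x < y →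
    (R x y → 0 < ∑ i, a x i * b y i) ∧ (¬ R x y → ∑ i, a x i * b y i < 0)

/-- The colours of the sets `{x, y} ∪ S`, `x < y` in `U`, are determined by `t` relations of sign
ranks at most `k j`. -/
def LinkSignRank {κ : Type} (c : Finset ℕ → κ) (U S : Finset ℕ) {t : ℕ} (k : Fin t → ℕ) : Prop :=
  ∃ R : Fin t → ℕ → ℕ → Prop, (∀ j, SignRankLE (R j) U (k j)) ∧
    ∀ x ∈ U, ∀ y ∈ U, x < y → ∀ x' ∈ U, ∀ y' ∈ U, x' < y' → (∀ j, R j x y ↔ R j x' y') →
      c (insert x (insert y S)) = c (insert x' (insert y' S))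

end Run7.h64.SR
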