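import Pool.Agent.H524R2.Forster

/-!
# Forster's isotropic position for arbitrary bilinear sign relations
-/

set_option autoImplicit false

namespace Run7.h64.SR

open Finset Matrix Pool.Agent.H524R2

open Polynomial in
/-- A small perturbation puts the vectors in general position. -/
theorem exists_general {N d : ℕ} {Y : Type*} [Fintype Y] (hN : 0 < N) (hd : d ≤ N)
    (u : Fin N → Fin d → ℝ) (v : Y → Fin d → ℝ) (hne : ∀ x y, u x ⬝ᵥ v y ≠ 0) :
    ∃ (u' : Fin N → Fin d → ℝ) (σ : Fin d → Equiv.Perm (Fin N)),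
      (∀ x y, 0 < (u x ⬝ᵥ v y) * (u' x ⬝ᵥ v y)) ∧
      ∀ w, Matrix.det (Matrix.of fun j => u' (σ j w)) ≠ 0 := by
  have : NeZero N := ⟨hN.ne'⟩
  let σ : Fin d → Equiv.Perm (Fin N) := fun j => Equiv.addRight (Fin.castLE hd j)
  have hσinj : ∀ w, Function.Injective fun j => σ j w := by
    intro w j j' hjj
    simp only [σ, Equiv.coe_addRight] at hjj
    exact Fin.castLE_injective hd (add_left_cancel hjj)
  let p : Fin N → Fin d → ℝ := fun x i => ((x : ℕ) : ℝ) ^ (i : ℕ)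
  have hp : ∀ w, Matrix.det (Matrix.of fun j => p (σ j w)) ≠ 0 := by
    intro w
    have : (Matrix.of fun j => p (σ j w)) = Matrix.vandermonde fun j => (((σ j w : Fin N) : ℕ) : ℝ) := by
      ext i j; simp [p, Matrix.vandermonde]
    rw [this, Matrix.det_vandermonde_ne_zero_iff]
    intro j j' hjj
    have h1 : ((σ j w : Fin N) : ℕ) = ((σ j' w : Fin N) : ℕ) := by
      have h2 : (((σ j w : Fin N) : ℕ) : ℝ) = (((σ j' w : Fin N) : ℕ) : ℝ) := hjj
      exact_mod_cast h2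
    exact hσinj w (Fin.ext h1)
  let P : Fin N → ℝ[X] := fun w =>
    Matrix.det ((X : ℝ[X]) • (Matrix.of fun j => p (σ j w)).map C + (Matrix.of fun j => u (σ j w)).map C)
  have hP : ∀ w, P w ≠ 0 := by
    intro w h
    have := Polynomial.coeff_det_X_add_C_card (Matrix.of fun j => p (σ j w))
      (Matrix.of fun j => u (σ j w))
    change (P w).coeff _ = _ at this
    rw [h, Polynomial.coeff_zero] at this
    exact hp w this.symm
  have hPeval : ∀ w t, (P w).eval t = Matrix.det (Matrix.of fun j => (u (σ j w) + t • p (σ j w))) := by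
    intro w t
    have := RingHom.map_det (Polynomial.evalRingHom t)
      ((X : ℝ[X]) • (Matrix.of fun j => p (σ j w)).map C + (Matrix.of fun j => u (σ j w)).map C)
    rw [Polynomial.coe_evalRingHom] at this
    rw [this]
    congr 1
    ext i j
    simp
    ring
  have hev1 : ∀ᶠ t : ℝ in nhdsWithin 0 (Set.Ioi 0), ∀ w, (P w).eval t ≠ 0 := by
    rw [Filter.eventually_all]
    intro w
    have hfin : ((P w).roots.toFinset : Set ℝ).Finite := Finset.finite_toSet _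
    have h1 : (((P w).roots.toFinset : Set ℝ) \ {0})ᶜ ∈ nhds (0 : ℝ) := by
      refine (hfin.subset Set.sdiff_subset).isClosed.isOpen_compl.mem_nhds ?_
      simp
    filter_upwards [nhdsWithin_le_nhds h1, self_mem_nhdsWithin] with t ht ht0 hroot
    refine ht ⟨?_, ne_of_gt ht0⟩
    simp only [Finset.mem_coe, Multiset.mem_toFinset]
    exact (Polynomial.mem_roots (hP w)).2 hroot
  have hev2 : ∀ᶠ t : ℝ in nhdsWithin 0 (Set.Ioi 0),
      ∀ x y, 0 < (u x ⬝ᵥ v y) * ((u x + t • p x) ⬝ᵥ v y) := by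
    rw [Filter.eventually_all]
    intro x
    rw [Filter.eventually_all]
    intro y
    have hc : Filter.Tendsto (fun t : ℝ => (u x ⬝ᵥ v y) * ((u x + t • p x) ⬝ᵥ v y))
        (nhdsWithin 0 (Set.Ioi 0)) (nhds ((u x ⬝ᵥ v y) * ((u x + (0 : ℝ) • p x) ⬝ᵥ v y))) := by
      refine Filter.Tendsto.mono_left ?_ nhdsWithin_le_nhds
      refine Continuous.tendsto ?_ 0
      simp only [add_dotProduct, smul_dotProduct, smul_eq_mul]
      fun_prop
    refine hc.eventually (lt_mem_nhds ?_)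
    have h0 : 0 < (u x ⬝ᵥ v y) * (u x ⬝ᵥ v y) := mul_self_pos.2 (hne x y)
    rw [zero_smul, add_zero]
    exact h0
  obtain ⟨t, h1, h2⟩ := (hev1.and hev2).exists
  refine ⟨fun x => u x + t • p x, σ, h2, ?_⟩
  intro w
  rw [← hPeval]
  exact h1 w

theorem exists_units {N d : ℕ} {Y : Type*} [Fintype Y] [Nonempty Y] (hN : 0 < N) (hd : d ≤ N)
    (hd1 : 1 ≤ d)
    (u : Fin N → Fin d → ℝ) (v : Y → Fin d → ℝ) (hne : ∀ x y, u x ⬝ᵥ v y ≠ 0) :
    ∃ (U : Fin N → Fin d → ℝ) (V : Y → Fin d → ℝ), (∀ x, ∑ i, U x i ^ 2 = 1) ∧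
      (∀ y, ∑ i, V y i ^ 2 = 1) ∧ (∀ x y, 0 < (u x ⬝ᵥ v y) * ∑ i, U x i * V y i) ∧
      ∀ y, (N : ℝ) / (2 * d) ≤ ∑ x, (∑ i, U x i * V y i) ^ 2 := by
  obtain ⟨u', σ, hs, hσ⟩ := exists_general hN hd u v hne
  have hX : 0 < Fintype.card (Fin N) := by simpa using hN
  obtain ⟨y0⟩ := ‹Nonempty Y›
  have hu : ∀ x, u' x ≠ 0 := by
    intro x h
    have := hs x y0
    rw [h, zero_dotProduct, mul_zero] at this
    exact lt_irrefl _ this
  have hv : ∀ y, v y ≠ 0 := by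
    intro y h
    have := hs ⟨0, hN⟩ y
    rw [h, dotProduct_zero, zero_mul] at this
    exact lt_irrefl _ this
  obtain ⟨A, hA, hiso⟩ := exists_isotropic u' hu σ hσ hX (1 / 2) (by norm_num)
  have hnA : ∀ x, 0 < nrm u' A x := fun x => dot_self_pos (mulVec_ne_zero hA (hu x))
  let v' : Y → Fin d → ℝ := fun y => (A⁻¹)ᵀ *ᵥ v y
  have hdu : IsUnit A.det := isUnit_iff_ne_zero.2 hA
  have hv'0 : ∀ y, v' y ≠ 0 := by
    intro y
    refine mulVec_ne_zero ?_ (hv y)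
    rw [Matrix.det_transpose]
    exact (Matrix.isUnit_nonsing_inv_det A hdu).ne_zero
  have hdot : ∀ x y, (A *ᵥ u' x) ⬝ᵥ v' y = u' x ⬝ᵥ v y := by
    intro x y
    show (A *ᵥ u' x) ⬝ᵥ ((A⁻¹)ᵀ *ᵥ v y) = _
    rw [Matrix.dotProduct_mulVec, Matrix.vecMul_transpose, Matrix.mulVec_mulVec,
      Matrix.nonsing_inv_mul A hdu, Matrix.one_mulVec]
  let a : Fin N → ℝ := fun x => Real.sqrt (nrm u' A x)
  let b : Y → ℝ := fun y => Real.sqrt (v' y ⬝ᵥ v' y)
  have ha : ∀ x, 0 < a x := fun x => Real.sqrt_pos.2 (hnA x)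
  have hb : ∀ y, 0 < b y := fun y => Real.sqrt_pos.2 (dot_self_pos (hv'0 y))
  have ha2 : ∀ x, a x ^ 2 = nrm u' A x := fun x => Real.sq_sqrt (hnA x).le
  have hb2 : ∀ y, b y ^ 2 = v' y ⬝ᵥ v' y := fun y => Real.sq_sqrt (dot_self_pos (hv'0 y)).le
  let U : Fin N → Fin d → ℝ := fun x => (a x)⁻¹ • (A *ᵥ u' x)
  let V : Y → Fin d → ℝ := fun y => (b y)⁻¹ • v' y
  have hU1 : ∀ x, U x ⬝ᵥ U x = 1 := by
    intro x
    show ((a x)⁻¹ • (A *ᵥ u' x)) ⬝ᵥ ((a x)⁻¹ • (A *ᵥ u' x)) = 1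
    rw [smul_dotProduct, dotProduct_smul]
    have : (A *ᵥ u' x) ⬝ᵥ (A *ᵥ u' x) = a x ^ 2 := (ha2 x).symm
    rw [this]
    have := (ha x).ne'
    simp only [smul_eq_mul]
    field_simp
  have hV1 : ∀ y, V y ⬝ᵥ V y = 1 := by
    intro y
    show ((b y)⁻¹ • v' y) ⬝ᵥ ((b y)⁻¹ • v' y) = 1
    rw [smul_dotProduct, dotProduct_smul, ← hb2]
    have := (hb y).ne'
    simp only [smul_eq_mul]
    field_simp
  have hUV : ∀ x y, U x ⬝ᵥ V y = (a x)⁻¹ * (b y)⁻¹ * (u' x ⬝ᵥ v y) := by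
    intro x y
    show ((a x)⁻¹ • (A *ᵥ u' x)) ⬝ᵥ ((b y)⁻¹ • v' y) = _
    rw [smul_dotProduct, dotProduct_smul, hdot]
    simp only [smul_eq_mul]
    ring
  refine ⟨U, V, ?_, ?_, ?_, ?_⟩
  · intro x
    rw [← hU1 x]
    exact sum_congr rfl fun i _ => by ring
  · intro y
    rw [← hV1 y]
    exact sum_congr rfl fun i _ => by ring
  · intro x y
    show 0 < (u x ⬝ᵥ v y) * (U x ⬝ᵥ V y)
    rw [hUV]
    have h1 := hs x y
    have h2 := inv_pos.2 (ha x)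
    have h3 := inv_pos.2 (hb y)
    have : (u x ⬝ᵥ v y) * ((a x)⁻¹ * (b y)⁻¹ * (u' x ⬝ᵥ v y))
        = (a x)⁻¹ * (b y)⁻¹ * ((u x ⬝ᵥ v y) * (u' x ⬝ᵥ v y)) := by ring
    rw [this]
    positivity
  · intro y
    have h1 := hiso (V y) (hV1 y)
    have h2 : ∀ x, ((A *ᵥ u' x) ⬝ᵥ V y) ^ 2 / nrm u' A x = (∑ i, U x i * V y i) ^ 2 := by
      intro x
      have h3 : U x ⬝ᵥ V y = (a x)⁻¹ * ((A *ᵥ u' x) ⬝ᵥ V y) := by
        show ((a x)⁻¹ • (A *ᵥ u' x)) ⬝ᵥ V y = _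
        rw [smul_dotProduct, smul_eq_mul]
      show _ = (U x ⬝ᵥ V y) ^ 2
      rw [h3, mul_pow, inv_pow, ha2]
      ring
    simp_rw [h2] at h1
    rw [Fintype.card_fin] at h1
    have hdpos : (0 : ℝ) < d := by exact_mod_cast hd1
    rw [div_le_iff₀ (by positivity)]
    linarith

end Run7.h64.SR
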