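import Pool.Agent.Run7.h64.SR.MHom2
import Pool.Agent.Y424.LK.QMain

/-!
# Colourings with links of bounded sign rank
-/

set_option autoImplicit false

namespace Run7.h64.SR

open Finset Pool.Agent.TH138.NF Pool.Agent.Y424.LK

theorem sqrt_prod_eq {t : ℕ} (k : Fin t → ℕ) :
    Real.sqrt (∏ j, (k j : ℝ)) = ∏ j, Real.sqrt (k j) :=
  Real.sqrt_prod _ fun _ _ => Nat.cast_nonneg _

/-- Links of bounded sign rank have large homogeneous sets. -/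
theorem link_hom (t : ℕ) : ∃ C : ℝ, 0 < C ∧ ∀ (n : ℕ) (k : Fin t → ℕ), 2 ≤ n → (∀ j, 1 ≤ k j) →
    ∀ (κ : Type) (c : Finset ℕ → κ) (U S : Finset ℕ), LinkSignRank c U S k →
    (∀ a : κ, (colourLink c a U S).CliqueFree n) →
    (U.card : ℝ) < (2 : ℝ) ^ (C * Real.sqrt (∏ j, (k j : ℝ)) * Real.log n ^ (t + 2)) := by
  classical
  obtain ⟨C, hC, hmain⟩ := multi_hom t
  refine ⟨C, hC, ?_⟩
  intro n k hn hk κ c U S hL hfree
  by_contra hcon
  rw [not_lt, sqrt_prod_eq] at hcon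
  obtain ⟨R, hR, hRc⟩ := hL
  obtain ⟨P, hP, hPc, σ, hσ⟩ := hmain n k hn hk U R hR hcon
  obtain ⟨x₀, hx₀, y₀, hy₀, hxy₀⟩ := Finset.one_lt_card.1 (show 1 < P.card by omega)
  have hex : ∃ x ∈ P, ∃ y ∈ P, x < y := by
    rcases lt_or_gt_of_ne hxy₀ with h | h
    · exact ⟨x₀, hx₀, y₀, hy₀, h⟩
    · exact ⟨y₀, hy₀, x₀, hx₀, h⟩
  obtain ⟨u, hu, v, hv, huv⟩ := hex
  have hcol : ∀ x ∈ P, ∀ y ∈ P, x < y →
      c (insert x (insert y S)) = c (insert u (insert v S)) := by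
    intro x hx y hy hxy
    refine hRc x (hP hx) y (hP hy) hxy u (hP hu) v (hP hv) huv fun j => ?_
    rw [hσ x hx y hy hxy j, hσ u hu v hv huv j]
  refine hfree (c (insert u (insert v S))) (univ.filter fun x : {x // x ∈ U} => x.1 ∈ P) ?_
  constructor
  · intro x hx y hy hxy
    have hx' : x.1 ∈ P := (mem_filter.1 (mem_coe.1 hx)).2
    have hy' : y.1 ∈ P := (mem_filter.1 (mem_coe.1 hy)).2
    refine ⟨hxy, ?_⟩
    rcases lt_or_gt_of_ne (fun e => hxy (Subtype.ext e) : x.1 ≠ y.1) with h | h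
    · exact hcol _ hx' _ hy' h
    · rw [Finset.insert_comm]
      exact hcol _ hy' _ hx' h
  · rw [← hPc, ← card_image_of_injective _ Subtype.val_injective]
    congr 1
    ext x
    simp only [mem_image, mem_filter, mem_univ, true_and, Subtype.exists, exists_and_left,
      exists_prop, exists_eq_right_right]
    exact ⟨fun h => h.1, fun h => ⟨h, hP h⟩⟩

/-- The upper bound. -/
theorem hyper_upper (t : ℕ) : ∃ C : ℝ, 0 < C ∧ ∀ (κ : Type) [Fintype κ] (l : ℕ), 1 ≤ l →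
    Fintype.card κ ≤ 2 ^ l → ∀ (s N n : ℕ) (k : Fin t → ℕ), 2 ≤ n → (∀ j, 1 ≤ k j) →
    tow (s + 1) (C * Real.sqrt (∏ j, (k j : ℝ)) * Real.log n ^ (t + 2) +
      l * ((s : ℝ) + 3) ^ 2) ≤ N →
    ∀ c : Finset ℕ → κ,
      (∀ U ⊆ range N, ∀ S ⊆ range N, S.card = s → (∀ u ∈ U, ∀ w ∈ S, u < w) →
        LinkSignRank c U S k) →
      ∃ H ⊆ range N, H.card = n ∧ Homogeneous (s + 2) c H := by
  classical
  obtain ⟨C, hC, hlink⟩ := link_hom t
  refine ⟨2 * C, by positivity, ?_⟩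
  intro κ _ l hl hκ s N n k hn hk hN c hSR
  by_contra hcon
  push Not at hcon
  have hlog : 0 ≤ Real.log n := Real.log_natCast_nonneg n
  have hl1 : (1 : ℝ) ≤ l := by exact_mod_cast hl
  set B : ℝ := C * Real.sqrt (∏ j, (k j : ℝ)) * Real.log n ^ (t + 2) with hB
  have hB0 : 0 ≤ B := by positivity
  set Y := ⌈B⌉₊ with hY
  have hY1 : B ≤ Y := Nat.le_ceil B
  have hY2 : (Y : ℝ) < B + 1 := Nat.ceil_lt_add_one hB0
  have hN' : twr (s + 1) (2 * Y + l * (s + 2) ^ 2) ≤ N := by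
    have h1 : ((twr (s + 1) (2 * Y + l * (s + 2) ^ 2) : ℕ) : ℝ) ≤ N := by
      rw [twr_cast]
      refine le_trans (tow_mono (s + 1) ?_) hN
      push_cast
      have h4 : 2 * C * Real.sqrt (∏ j, (k j : ℝ)) * Real.log n ^ (t + 2) = 2 * B := by
        rw [hB]; ring
      rw [h4]
      have h5 : (0 : ℝ) ≤ s := Nat.cast_nonneg s
      have h6 : (l : ℝ) * ((s : ℝ) + 2) ^ 2 + 2 ≤ l * ((s : ℝ) + 3) ^ 2 := by
        have : (l : ℝ) * ((s : ℝ) + 3) ^ 2 = l * ((s : ℝ) + 2) ^ 2 + l * (2 * s + 5) := by ring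
        rw [this]
        nlinarith
      linarith
    exact_mod_cast h1
  obtain ⟨U, S, hU, hS, hUc, hSc, hlt, hlk, g1⟩ := exists_linkQ κ l hl hκ s Y n N hN' c hcon
  have h1 := hlink n k hn hk κ c U S (hSR U hU S hS hSc hlt) g1
  rw [← hB, hUc] at h1
  push_cast at h1
  rw [← Real.rpow_natCast] at h1
  have h2 := (Real.rpow_lt_rpow_left_iff (by norm_num : (1 : ℝ) < 2)).1 h1
  linarith

/-- The structure of colourings without homogeneous sets on towers of full height. -/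
theorem hyper_struct (t : ℕ) : ∃ c₀ : ℝ, 0 < c₀ ∧ ∀ (l s : ℕ) (ε : ℝ), 1 ≤ l → 0 < ε → ε ≤ 1 →
    ∃ n₀ : ℕ, ∀ (κ : Type) [Fintype κ], Fintype.card κ ≤ 2 ^ l → ∀ n N : ℕ, n₀ ≤ n →
    tow (s + 1) (ε * n) ≤ N → ∀ c : Finset ℕ → κ,
      (∀ H ⊆ range N, H.card = n → ¬ Homogeneous (s + 2) c H) →
      ∃ U S : Finset ℕ, U ⊆ range N ∧ S ⊆ range N ∧ U.card = 2 ^ ⌊ε / 3 * n⌋₊ ∧ S.card = s ∧
        (∀ u ∈ U, ∀ w ∈ S, u < w) ∧ LinkOn s c U S ∧
        (∀ a : κ, (colourLink c a U S).CliqueFree n) ∧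
        ∀ k : Fin t → ℕ, (∀ j, 1 ≤ k j) → LinkSignRank c U S k →
          c₀ * (ε * n) ^ 2 / Real.log n ^ (2 * t + 4) ≤ ∏ j, (k j : ℝ) := by
  classical
  obtain ⟨C, hC, hlink⟩ := link_hom t
  refine ⟨1 / (16 * C ^ 2), by positivity, ?_⟩
  intro l s ε hl hε hε1
  obtain ⟨n₁, hn₁⟩ := exists_nat_gt (12 / ε)
  obtain ⟨n₂, hn₂⟩ := exists_nat_gt (3 * l * ((s : ℝ) + 2) ^ 2 / ε)
  refine ⟨max (max n₁ n₂) 2, ?_⟩
  intro κ _ hκ n N hn hN c hc
  have hn1 : n₁ ≤ n := (le_max_left _ _).trans ((le_max_left _ _).trans hn)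
  have hn2 : n₂ ≤ n := (le_max_right _ _).trans ((le_max_left _ _).trans hn)
  have hn3 : 2 ≤ n := (le_max_right _ _).trans hn
  have hn1' : 12 / ε < n := hn₁.trans_le (by exact_mod_cast hn1)
  have hn2' : 3 * l * ((s : ℝ) + 2) ^ 2 / ε < n := hn₂.trans_le (by exact_mod_cast hn2)
  rw [div_lt_iff₀ hε] at hn1' hn2'
  set Y := ⌊ε / 3 * n⌋₊ with hY
  have hY1 : (Y : ℝ) ≤ ε / 3 * n := Nat.floor_le (by positivity)
  have hY2 : ε / 3 * n < Y + 1 := Nat.lt_floor_add_one _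
  have hN' : twr (s + 1) (2 * Y + l * (s + 2) ^ 2) ≤ N := by
    have h1 : ((twr (s + 1) (2 * Y + l * (s + 2) ^ 2) : ℕ) : ℝ) ≤ N := by
      rw [twr_cast]
      refine le_trans (tow_mono (s + 1) ?_) hN
      push_cast
      linarith
    exact_mod_cast h1
  obtain ⟨U, S, hU, hS, hUc, hSc, hlt, hlk, g1⟩ := exists_linkQ κ l hl hκ s Y n N hN' c hc
  refine ⟨U, S, hU, hS, hUc, hSc, hlt, hlk, g1, ?_⟩
  intro k hk hL
  have h1 := hlink n k hn3 hk κ c U S hL g1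
  rw [hUc] at h1
  push_cast at h1
  rw [← Real.rpow_natCast] at h1
  have h2 := (Real.rpow_lt_rpow_left_iff (by norm_num : (1 : ℝ) < 2)).1 h1
  have hnr : (2 : ℝ) ≤ n := by exact_mod_cast hn3
  have hlog : 0 < Real.log n := Real.log_pos (by linarith)
  have h3 : ε * n / 4 ≤ C * Real.sqrt (∏ j, (k j : ℝ)) * Real.log n ^ (t + 2) := by
    have h4 : ε / 3 * n - 1 < Y := by linarith
    linarith
  have hprod : (0 : ℝ) ≤ ∏ j, (k j : ℝ) := prod_nonneg fun _ _ => Nat.cast_nonneg _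
  have h4 : (ε * n / 4) ^ 2 ≤ (C * Real.sqrt (∏ j, (k j : ℝ)) * Real.log n ^ (t + 2)) ^ 2 :=
    pow_le_pow_left₀ (by positivity) h3 2
  have h5 : (C * Real.sqrt (∏ j, (k j : ℝ)) * Real.log n ^ (t + 2)) ^ 2 =
      C ^ 2 * (∏ j, (k j : ℝ)) * Real.log n ^ (2 * t + 4) := by
    rw [mul_pow, mul_pow, Real.sq_sqrt hprod, ← pow_mul]
    ring
  rw [h5] at h4
  rw [div_le_iff₀ (by positivity)]
  have h6 : 1 / (16 * C ^ 2) * (ε * n) ^ 2 = (ε * n / 4) ^ 2 / C ^ 2 := by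
    field_simp
    ring
  rw [h6, div_le_iff₀ (by positivity)]
  linarith

end Run7.h64.SR
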