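import Mathlib

/-!
# The choice of the parameters
-/

set_option autoImplicit false

namespace Run7.h64.SR

theorem exp_half_le {x : ℝ} (h0 : 0 ≤ x) (h1 : x ≤ 1) : Real.exp (x / 2) ≤ 1 + x := by
  have h := Real.abs_exp_sub_one_sub_id_le (x := x / 2) (by rw [abs_of_nonneg (by linarith)]; linarith)
  have h2 := (abs_le.1 h).2
  nlinarith

theorem params (d : ℕ) (hd : 1 ≤ d) (K : ℝ) (hK : 1 ≤ K) : ∃ (T : ℝ) (s : ℕ), 0 < T ∧ 2 ≤ T ^ 2 ∧
    12 * Real.exp (-(T ^ 2 / 2)) ≤ 1 / Real.sqrt (8 * d) / (2 * T ^ 2) ∧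
    12 * Real.exp (-(T ^ 2 / 2)) * s ≤ 1 ∧
    8 * d * (3 * K + 1) ≤ (1 + 1 / Real.sqrt (8 * d) / (2 * T ^ 2)) ^ s ∧
    (s : ℝ) ≤ 48 * Real.log (8 * d * (3 * K + 1)) ^ 2 * Real.sqrt (8 * d) + 1 ∧
    Real.log (8 * d * (3 * K + 1)) ≤ s := by
  have hdr : (1 : ℝ) ≤ d := by exact_mod_cast hd
  set A : ℝ := 8 * d * (3 * K + 1) with hA
  have hA32 : 32 ≤ A := by
    rw [hA]
    nlinarith
  set Λ := Real.log A with hΛ
  have hΛ1 : 1 ≤ Λ := by
    rw [hΛ, Real.le_log_iff_exp_le (by linarith)]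
    have := Real.exp_one_lt_d9
    linarith
  have hΛA : Λ ≤ A := by
    have := Real.log_le_sub_one_of_pos (show 0 < A by linarith)
    linarith
  have hexpΛ : Real.exp Λ = A := Real.exp_log (by linarith)
  set r := Real.sqrt (8 * d) with hr
  have hr1 : 1 ≤ r := by
    rw [hr]
    apply Real.one_le_sqrt.2
    linarith
  have hrA : r ≤ A := by
    have h1 : r ^ 2 = 8 * d := Real.sq_sqrt (by positivity)
    have h2 : (8 : ℝ) * d ≤ A := by
      rw [hA]
      nlinarith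
    nlinarith
  set s := ⌈48 * Λ ^ 2 * r⌉₊ with hs
  have hs1 : 48 * Λ ^ 2 * r ≤ s := Nat.le_ceil _
  have hs2 : (s : ℝ) ≤ 48 * Λ ^ 2 * r + 1 := (Nat.ceil_lt_add_one (by positivity)).le
  have hT2 : Real.sqrt (12 * Λ) ^ 2 = 12 * Λ := Real.sq_sqrt (by positivity)
  have he : Real.exp (-(Real.sqrt (12 * Λ) ^ 2 / 2)) = 1 / A ^ 6 := by
    rw [hT2]
    have : -(12 * Λ / 2) = -(6 * Λ) := by ring
    rw [this, Real.exp_neg, ← hexpΛ, ← Real.exp_nat_mul]
    norm_num
  have hApos : 0 < A := by linarith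
  have hlogs : Λ ≤ s := by
    refine le_trans ?_ hs1
    nlinarith [mul_pos (show 0 < Λ by linarith) (show 0 < r by linarith)]
  refine ⟨Real.sqrt (12 * Λ), s, Real.sqrt_pos.2 (by positivity), ?_, ?_, ?_, ?_, hs2, hlogs⟩
  · rw [hT2]
    linarith
  · rw [he, hT2, div_div, mul_one_div, div_le_div_iff₀ (by positivity) (by positivity)]
    have h1 : r * (2 * (12 * Λ)) ≤ A * (2 * (12 * A)) := by
      apply mul_le_mul hrA (by linarith) (by positivity) (by positivity)
    have h2 : 12 * (A * (2 * (12 * A))) ≤ 1 * A ^ 6 := by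
      have h3 : (288 : ℝ) ≤ A ^ 4 := by
        calc (288 : ℝ) ≤ 32 ^ 4 := by norm_num
          _ ≤ A ^ 4 := pow_le_pow_left₀ (by norm_num) hA32 4
      have h4 : 12 * (A * (2 * (12 * A))) = 288 * A ^ 2 := by ring
      have h5 : 1 * A ^ 6 = A ^ 4 * A ^ 2 := by ring
      rw [h4, h5]
      exact mul_le_mul_of_nonneg_right h3 (by positivity)
    linarith
  · rw [he]
    have h1 : (s : ℝ) ≤ 49 * A ^ 4 := by
      have h2 : 48 * Λ ^ 2 * r ≤ 48 * A ^ 2 * A := by
        apply mul_le_mul _ hrA (by positivity) (by positivity)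
        have := pow_le_pow_left₀ (by linarith) hΛA 2
        linarith
      have h3 : (1 : ℝ) ≤ A := by linarith
      have h4 : A ^ 3 ≤ A ^ 4 := pow_le_pow_right₀ h3 (by norm_num)
      have h5 : 1 ≤ A ^ 4 := one_le_pow₀ h3
      nlinarith
    have h2 : (588 : ℝ) ≤ A ^ 2 := by nlinarith
    have h3 : 12 * (1 / A ^ 6) * (s : ℝ) ≤ 12 * (1 / A ^ 6) * (49 * A ^ 4) :=
      mul_le_mul_of_nonneg_left h1 (by positivity)
    have h4 : 12 * (1 / A ^ 6) * (49 * A ^ 4) = 588 / A ^ 2 := by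
      field_simp
      ring
    rw [h4] at h3
    refine h3.trans ?_
    rw [div_le_one (by positivity)]
    exact h2
  · rw [hT2]
    set x := 1 / r / (2 * (12 * Λ)) with hx
    have hx0 : 0 < x := by positivity
    have hx1 : x ≤ 1 := by
      rw [hx, div_div, div_le_one (by positivity)]
      nlinarith
    calc A = Real.exp Λ := hexpΛ.symm
      _ ≤ Real.exp (s * (x / 2)) := by
          apply Real.exp_le_exp.2
          have h1 : (48 * Λ ^ 2 * r) * (x / 2) = Λ := by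
            rw [hx]
            field_simp
            ring
          calc Λ = (48 * Λ ^ 2 * r) * (x / 2) := h1.symm
            _ ≤ s * (x / 2) := mul_le_mul_of_nonneg_right hs1 (by positivity)
      _ = Real.exp (x / 2) ^ s := by rw [← Real.exp_nat_mul]
      _ ≤ (1 + x) ^ s := pow_le_pow_left₀ (Real.exp_pos _).le (exp_half_le hx0.le hx1) s

end Run7.h64.SR
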