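import Pool.Agent.Run7.h64.SR.Rect
import Pool.Agent.Run7.h64.SR.Num

/-!
# From biased rectangles to homogeneous sets
-/

set_option autoImplicit false

namespace Run7.h64.SR

open Finset

/-- splitting an ordered set -/
theorem exists_cut (W : Finset ℕ) (k : ℕ) (hk : k ≤ W.card) :
    ∃ t, (W.filter (fun x => x < t)).card = k := by
  rcases Nat.eq_zero_or_pos k with rfl | hpos
  · exact ⟨0, by simp⟩
  have hex : ∃ t, k ≤ (W.filter (fun x => x < t)).card := by
    refine ⟨W.sup id + 1, ?_⟩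
    have : W.filter (fun x => x < W.sup id + 1) = W := by
      apply filter_true_of_mem
      intro x hx
      have := le_sup (f := id) hx
      simp only [id] at this
      omega
    rw [this]
    exact hk
  classical
  have h1 := Nat.find_spec hex
  have h2 : ∀ m < Nat.find hex, ¬ k ≤ (W.filter (fun x => x < m)).card :=
    fun m hm => Nat.find_min hex hm
  set t := Nat.find hex with ht
  refine ⟨t, le_antisymm ?_ h1⟩
  rcases Nat.eq_zero_or_pos t with h0 | h0
  · rw [h0] at h1 ⊢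
    simp at h1
    omega
  · have h3 := h2 (t - 1) (by omega)
    have h4 : W.filter (fun x => x < t) ⊆ insert (t - 1) (W.filter (fun x => x < t - 1)) := by
      intro x hx
      rw [mem_filter] at hx
      rw [mem_insert, mem_filter]
      rcases Nat.lt_or_ge x (t - 1) with h | h
      · exact Or.inr ⟨hx.1, h⟩
      · left
        omega
    have h5 := (card_le_card h4).trans (card_insert_le _ _)
    omega

open Classical in
/-- the number of bad pairs -/
noncomputable def bd (R : ℕ → ℕ → Prop) (A B : Finset ℕ) : ℝ :=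
  ∑ x ∈ A, ∑ y ∈ B, if R x y then 1 else 0

theorem bd_nonneg (R : ℕ → ℕ → Prop) (A B : Finset ℕ) : 0 ≤ bd R A B := by
  classical
  unfold bd
  apply sum_nonneg
  intro x _
  apply sum_nonneg
  intro y _
  split_ifs <;> norm_num

theorem bd_ge_one {R : ℕ → ℕ → Prop} {A B : Finset ℕ} (h : ∃ x ∈ A, ∃ y ∈ B, R x y) :
    1 ≤ bd R A B := by
  classical
  obtain ⟨x, hx, y, hy, hR⟩ := h
  have h1 : (1 : ℝ) ≤ ∑ y ∈ B, if R x y then 1 else 0 := by
    refine le_trans (le_of_eq (if_pos hR).symm)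
      (single_le_sum (f := fun y => if R x y then (1 : ℝ) else 0) ?_ hy)
    intro z _
    show 0 ≤ if R x z then (1 : ℝ) else 0
    split_ifs <;> norm_num
  unfold bd
  refine h1.trans (single_le_sum (f := fun x => ∑ y ∈ B, if R x y then (1 : ℝ) else 0) ?_ hx)
  intro z _
  apply sum_nonneg
  intro w _
  split_ifs <;> norm_num

theorem bd_split_right (R : ℕ → ℕ → Prop) (A : Finset ℕ) {B S : Finset ℕ} (h : S ⊆ B) :
    bd R A B = bd R A S + bd R A (B \ S) := by
  classical
  unfold bd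
  rw [← sum_add_distrib]
  refine sum_congr rfl fun x _ => ?_
  rw [add_comm, sum_sdiff h]

theorem bd_split_left (R : ℕ → ℕ → Prop) (B : Finset ℕ) {A S : Finset ℕ} (h : S ⊆ A) :
    bd R A B = bd R S B + bd R (A \ S) B := by
  classical
  unfold bd
  rw [add_comm, sum_sdiff h]

/-- many bad pairs, one side -/
theorem bad_one {R : ℕ → ℕ → Prop} {F : Finset ℕ → Prop} {m : ℕ} {L : ℝ} (hm : 1 ≤ m)
    {S : Finset ℕ} :
    ∀ (N : ℕ) (B : Finset ℕ), B.card = N →
      (∀ W ⊆ B, L ≤ W.card → ∃ S' ⊆ W, F S' ∧ S'.card = m) →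
      (∀ S' ⊆ B, F S' → ∃ x ∈ S, ∃ y ∈ S', R x y) → (B.card : ℝ) - L ≤ m * bd R S B := by
  intro N
  induction N using Nat.strong_induction_on with
  | _ N ih =>
    intro B hB hF hbad
    have hmr : (0 : ℝ) < m := by exact_mod_cast hm
    rcases lt_or_ge (B.card : ℝ) L with h | h
    · have := bd_nonneg R S B
      nlinarith
    · obtain ⟨S', hS', hFS, hc⟩ := hF B (Subset.refl _) h
      have h1 := bd_ge_one (hbad S' hS' hFS)
      have h2 : (B \ S').card = B.card - m := by
        rw [card_sdiff_of_subset hS', hc]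
      have h3 : m ≤ B.card := hc ▸ card_le_card hS'
      have h4 := ih (B \ S').card (by omega) (B \ S') rfl
        (fun W hW => hF W (hW.trans sdiff_subset))
        (fun S'' hS'' => hbad S'' (hS''.trans sdiff_subset))
      have h5 : ((B \ S').card : ℝ) = B.card - m := by
        rw [h2, Nat.cast_sub h3]
      rw [h5] at h4
      rw [bd_split_right R S hS']
      nlinarith

/-- many bad pairs -/
theorem bad_two {R : ℕ → ℕ → Prop} {F : Finset ℕ → Prop} {m : ℕ} {L : ℝ} (hm : 1 ≤ m)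
    {B : Finset ℕ} (hB : L ≤ B.card)
    (hFB : ∀ W ⊆ B, L ≤ W.card → ∃ S' ⊆ W, F S' ∧ S'.card = m) :
    ∀ (N : ℕ) (A : Finset ℕ), A.card = N →
      (∀ W ⊆ A, L ≤ W.card → ∃ S ⊆ W, F S ∧ S.card = m) →
      (∀ S ⊆ A, F S → ∀ S' ⊆ B, F S' → ∃ x ∈ S, ∃ y ∈ S', R x y) →
      ((A.card : ℝ) - L) * ((B.card : ℝ) - L) ≤ m ^ 2 * bd R A B := by
  intro N
  induction N using Nat.strong_induction_on with
  | _ N ih =>
    intro A hA hF hbad
    have hmr : (0 : ℝ) < m := by exact_mod_cast hm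
    rcases lt_or_ge (A.card : ℝ) L with h | h
    · have h1 := bd_nonneg R A B
      have h2 : ((A.card : ℝ) - L) * ((B.card : ℝ) - L) ≤ 0 :=
        mul_nonpos_of_nonpos_of_nonneg (by linarith) (by linarith)
      have h3 : 0 ≤ (m : ℝ) ^ 2 * bd R A B := by positivity
      linarith
    · obtain ⟨S, hS, hFS, hc⟩ := hF A (Subset.refl _) h
      have h1 := bad_one (R := R) (F := F) hm (S := S) B.card B rfl hFB (hbad S hS hFS)
      have h2 : (A \ S).card = A.card - m := by
        rw [card_sdiff_of_subset hS, hc]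
      have h3 : m ≤ A.card := hc ▸ card_le_card hS
      have h4 := ih (A \ S).card (by omega) (A \ S) rfl
        (fun W hW => hF W (hW.trans sdiff_subset))
        (fun S'' hS'' => hbad S'' (hS''.trans sdiff_subset))
      have h5 : ((A \ S).card : ℝ) = A.card - m := by
        rw [h2, Nat.cast_sub h3]
      rw [h5] at h4
      rw [bd_split_left R B hS]
      nlinarith

/-- good sets -/
def Good (R : ℕ → ℕ → Prop) (m : ℕ) (S : Finset ℕ) : Prop :=
  S.card = m ∧ ∃ P ⊆ S, ∃ Q ⊆ S, (∀ x ∈ P, ∀ y ∈ P, x < y → R x y) ∧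
    (∀ x ∈ Q, ∀ y ∈ Q, x < y → ¬ R x y) ∧ m ≤ P.card * Q.card

theorem Good.union {R : ℕ → ℕ → Prop} {m : ℕ} {S S' : Finset ℕ} (h : Good R m S)
    (h' : Good R m S') (hlt : ∀ x ∈ S, ∀ y ∈ S', x < y) (σ : Bool)
    (hR : ∀ x ∈ S, ∀ y ∈ S', (R x y ↔ σ = true)) : Good R (2 * m) (S ∪ S') := by
  obtain ⟨hc, P, hP, Q, hQ, hPR, hQR, hm⟩ := h
  obtain ⟨hc', P', hP', Q', hQ', hPR', hQR', hm'⟩ := h'
  have hdisj : Disjoint S S' := by
    rw [disjoint_left]
    intro x hx hx'
    exact lt_irrefl _ (hlt x hx x hx')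
  have hdP : Disjoint P P' := disjoint_of_subset_left hP (disjoint_of_subset_right hP' hdisj)
  have hdQ : Disjoint Q Q' := disjoint_of_subset_left hQ (disjoint_of_subset_right hQ' hdisj)
  have hcard : (S ∪ S').card = 2 * m := by
    rw [card_union_of_disjoint hdisj, hc, hc']
    ring
  have hPu : P ∪ P' ⊆ S ∪ S' := union_subset_union hP hP'
  have hQu : Q ∪ Q' ⊆ S ∪ S' := union_subset_union hQ hQ'
  have hPc : (P ∪ P').card = P.card + P'.card := card_union_of_disjoint hdP
  have hQc : (Q ∪ Q').card = Q.card + Q'.card := card_union_of_disjoint hdQ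
  cases σ with
  | true =>
    have hPP : ∀ x ∈ P ∪ P', ∀ y ∈ P ∪ P', x < y → R x y := by
      intro x hx y hy hxy
      rw [mem_union] at hx hy
      rcases hx with hx | hx <;> rcases hy with hy | hy
      · exact hPR x hx y hy hxy
      · exact (hR x (hP hx) y (hP' hy)).2 rfl
      · exact absurd (hlt y (hP hy) x (hP' hx)) hxy.not_gt
      · exact hPR' x hx y hy hxy
    rcases le_total Q.card Q'.card with h | h
    · refine ⟨hcard, P ∪ P', hPu, Q', hQ'.trans subset_union_right, hPP, hQR', ?_⟩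
      rw [hPc]
      nlinarith
    · refine ⟨hcard, P ∪ P', hPu, Q, hQ.trans subset_union_left, hPP, hQR, ?_⟩
      rw [hPc]
      nlinarith
  | false =>
    have hQQ : ∀ x ∈ Q ∪ Q', ∀ y ∈ Q ∪ Q', x < y → ¬ R x y := by
      intro x hx y hy hxy
      rw [mem_union] at hx hy
      rcases hx with hx | hx <;> rcases hy with hy | hy
      · exact hQR x hx y hy hxy
      · intro h
        have := (hR x (hQ hx) y (hQ' hy)).1 h
        simp at this
      · exact absurd (hlt y (hQ hy) x (hQ' hx)) hxy.not_gt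
      · exact hQR' x hx y hy hxy
    rcases le_total P.card P'.card with h | h
    · refine ⟨hcard, P', hP'.trans subset_union_right, Q ∪ Q', hQu, hPR', hQQ, ?_⟩
      rw [hQc]
      nlinarith
    · refine ⟨hcard, P, hP.trans subset_union_left, Q ∪ Q', hQu, hPR, hQQ, ?_⟩
      rw [hQc]
      nlinarith

open Classical in
/-- the rectangle property -/
def RectProp (R : ℕ → ℕ → Prop) (V : Finset ℕ) (d : ℕ) (K : ℝ) (s : ℕ) : Prop :=
  ∀ V₁ ⊆ V, ∀ V₂ ⊆ V, (∀ x ∈ V₁, ∀ y ∈ V₂, x < y) → d ≤ V₁.card → V₂.Nonempty →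
    ∃ A ⊆ V₁, ∃ B ⊆ V₂, ∃ σ : Bool, ((V₁.card : ℝ) * V₂.card) / 4 ^ s ≤
      ∑ x ∈ A, ∑ y ∈ B, if (R x y ↔ σ = true) then 1 else -K

theorem iterate {R : ℕ → ℕ → Prop} {V : Finset ℕ} {d H s : ℕ}
    (hrect : RectProp R V d (4 ^ H + 1) s) (hs : d ≤ 4 ^ s) :
    ∀ h ≤ H, ∀ W ⊆ V, ((8 * 4 ^ s : ℕ) : ℝ) ^ h ≤ W.card → ∃ S ⊆ W, Good R (2 ^ h) S := by
  classical
  intro h
  induction h with
  | zero =>
    intro _ W hW hc
    rw [pow_zero] at hc
    have hc' : 1 ≤ W.card := by exact_mod_cast hc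
    obtain ⟨x, hx⟩ := card_pos.1 hc'
    refine ⟨{x}, singleton_subset_iff.2 hx, by simp, {x}, Subset.refl _, {x}, Subset.refl _,
      ?_, ?_, by simp⟩
    · intro a ha b hb hab
      rw [mem_singleton] at ha hb
      omega
    · intro a ha b hb hab
      rw [mem_singleton] at ha hb
      omega
  | succ h ih =>
    intro hH W hW hc
    have ih' := ih (by omega)
    set Q : ℝ := ((8 * 4 ^ s : ℕ) : ℝ) with hQ
    have hQ8 : Q = 8 * 4 ^ s := by rw [hQ]; push_cast; ring
    have h4s : (1 : ℝ) ≤ 4 ^ s := one_le_pow₀ (by norm_num)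
    have hQh : 1 ≤ Q ^ h := one_le_pow₀ (by rw [hQ8]; linarith)
    -- the cut
    obtain ⟨t, ht⟩ := exists_cut W (W.card / 2) (Nat.div_le_self _ _)
    set V₁ := W.filter (fun x => x < t) with hV₁
    set V₂ := W.filter (fun x => ¬ x < t) with hV₂
    have hsum : V₁.card + V₂.card = W.card := card_filter_add_card_filter_not _
    have hlt : ∀ x ∈ V₁, ∀ y ∈ V₂, x < y := by
      intro x hx y hy
      have h1 := (mem_filter.1 hx).2
      have h2 := (mem_filter.1 hy).2
      omega
    have hW1 : ((W.card : ℝ) - 1) / 2 ≤ V₁.card := by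
      have h1 : W.card ≤ 2 * V₁.card + 1 := by omega
      have h2 : (W.card : ℝ) ≤ 2 * V₁.card + 1 := by exact_mod_cast h1
      linarith
    have hW2 : ((W.card : ℝ) - 1) / 2 ≤ V₂.card := by
      have h1 : W.card ≤ 2 * V₂.card + 1 := by omega
      have h2 : (W.card : ℝ) ≤ 2 * V₂.card + 1 := by exact_mod_cast h1
      linarith
    have hbig : 8 * 4 ^ s * Q ^ h ≤ W.card := by
      rw [← hQ8, ← pow_succ']
      exact hc
    have hbig2 : 2 * 4 ^ s * Q ^ h ≤ ((W.card : ℝ) - 1) / 2 := by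
      have h1 : 1 ≤ 4 ^ s * Q ^ h := by nlinarith
      linarith
    have h1Q : 4 ^ s ≤ 4 ^ s * Q ^ h := le_mul_of_one_le_right (by positivity) hQh
    have hV1d : d ≤ V₁.card := by
      have h1 : (d : ℝ) ≤ 4 ^ s := by exact_mod_cast hs
      have h2 : (d : ℝ) ≤ V₁.card := by linarith
      exact_mod_cast h2
    have hV2pos : 0 < V₂.card := by
      have h2 : (0 : ℝ) < V₂.card := by linarith
      exact_mod_cast h2
    have hV1pos : (0 : ℝ) < V₁.card := by linarith
    have hV2pos' : (0 : ℝ) < V₂.card := by exact_mod_cast hV2pos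
    obtain ⟨A, hA, B, hB, σ, hAB⟩ := hrect V₁ ((filter_subset _ _).trans hW) V₂
      ((filter_subset _ _).trans hW) hlt hV1d (card_pos.1 hV2pos)
    -- good and bad pairs
    set Rb : ℕ → ℕ → Prop := fun x y => ¬ (R x y ↔ σ = true) with hRb
    have hsplit : ∑ x ∈ A, ∑ y ∈ B, (if (R x y ↔ σ = true) then (1 : ℝ) else -(4 ^ H + 1)) =
        A.card * B.card - (4 ^ H + 2) * bd Rb A B := by
      unfold bd
      rw [mul_sum]
      have h1 : (A.card : ℝ) * B.card = ∑ x ∈ A, ∑ y ∈ B, (1 : ℝ) := by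
        simp
      rw [h1, ← sum_sub_distrib]
      refine sum_congr rfl fun x _ => ?_
      rw [mul_sum, ← sum_sub_distrib]
      refine sum_congr rfl fun y _ => ?_
      simp only [hRb]
      by_cases hxy : (R x y ↔ σ = true)
      · rw [if_pos hxy, if_neg (not_not.2 hxy)]
        ring
      · rw [if_neg hxy, if_pos hxy]
        ring
    rw [hsplit] at hAB
    have hbdn := bd_nonneg Rb A B
    have hABc : ((V₁.card : ℝ) * V₂.card) / 4 ^ s ≤ A.card * B.card := by
      have : 0 ≤ ((4 : ℝ) ^ H + 2) * bd Rb A B := by positivity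
      linarith
    have hAc : (A.card : ℝ) ≤ V₁.card := by exact_mod_cast card_le_card hA
    have hBc : (B.card : ℝ) ≤ V₂.card := by exact_mod_cast card_le_card hB
    have hA2 : 2 * Q ^ h ≤ A.card := by
      have h1 : ((V₁.card : ℝ) * V₂.card) / 4 ^ s ≤ A.card * V₂.card :=
        hABc.trans (mul_le_mul_of_nonneg_left hBc (Nat.cast_nonneg _))
      have h2 : (V₁.card : ℝ) / 4 ^ s ≤ A.card := by
        have h3 : ((V₁.card : ℝ) * V₂.card) / 4 ^ s = (V₁.card : ℝ) / 4 ^ s * V₂.card := by ring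
        rw [h3] at h1
        exact le_of_mul_le_mul_right h1 hV2pos'
      refine le_trans ?_ h2
      rw [le_div_iff₀ (by positivity)]
      linarith
    have hB2 : 2 * Q ^ h ≤ B.card := by
      have h1 : ((V₁.card : ℝ) * V₂.card) / 4 ^ s ≤ V₁.card * B.card :=
        hABc.trans (mul_le_mul_of_nonneg_right hAc (Nat.cast_nonneg _))
      have h2 : (V₂.card : ℝ) / 4 ^ s ≤ B.card := by
        have h3 : ((V₁.card : ℝ) * V₂.card) / 4 ^ s = V₁.card * ((V₂.card : ℝ) / 4 ^ s) := by ring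
        rw [h3] at h1
        exact le_of_mul_le_mul_left h1 hV1pos
      refine le_trans ?_ h2
      rw [le_div_iff₀ (by positivity)]
      linarith
    have hA' : A ⊆ V := (hA.trans (filter_subset _ _)).trans hW
    have hB' : B ⊆ V := (hB.trans (filter_subset _ _)).trans hW
    -- a perfect pair
    have hgood : ∃ S ⊆ A, Good R (2 ^ h) S ∧ ∃ S' ⊆ B, Good R (2 ^ h) S' ∧
        ∀ x ∈ S, ∀ y ∈ S', (R x y ↔ σ = true) := by
      by_contra hcon0
      have hcon : ∀ S ⊆ A, Good R (2 ^ h) S → ∀ S' ⊆ B, Good R (2 ^ h) S' →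
          ∃ x ∈ S, ∃ y ∈ S', Rb x y := by
        intro S hS hg S' hS' hg'
        by_contra hc'
        apply hcon0
        refine ⟨S, hS, hg, S', hS', hg', ?_⟩
        intro x hx y hy
        by_contra hxy
        exact hc' ⟨x, hx, y, hy, hxy⟩
      have h1 := bad_two (R := Rb) (F := Good R (2 ^ h)) (m := 2 ^ h) (L := Q ^ h)
        (Nat.one_le_two_pow) (B := B) (by linarith)
        (fun W' hW' hc' => by
          obtain ⟨S, hS, hg⟩ := ih' W' (hW'.trans hB') hc'
          exact ⟨S, hS, hg, hg.1⟩) A.card A rfl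
        (fun W' hW' hc' => by
          obtain ⟨S, hS, hg⟩ := ih' W' (hW'.trans hA') hc'
          exact ⟨S, hS, hg, hg.1⟩)
        (fun S hS hg S' hS' hg' => hcon S hS hg S' hS' hg')
      have h2 : (A.card : ℝ) * B.card / 4 ≤ (A.card - Q ^ h) * (B.card - Q ^ h) := by
        have h3 : (A.card : ℝ) / 2 ≤ A.card - Q ^ h := by linarith
        have h4 : (B.card : ℝ) / 2 ≤ B.card - Q ^ h := by linarith
        calc (A.card : ℝ) * B.card / 4 = (A.card : ℝ) / 2 * (B.card / 2) := by ring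
          _ ≤ _ := mul_le_mul h3 h4 (by positivity) (by linarith)
      have h3 : (((2 ^ h : ℕ) : ℝ)) ^ 2 = 4 ^ h := by
        push_cast
        rw [← pow_mul, mul_comm, pow_mul]
        norm_num
      rw [h3] at h1
      have h4 : (4 : ℝ) ^ H + 2 > 4 * 4 ^ h := by
        have h5 : (4 : ℝ) ^ (h + 1) ≤ 4 ^ H := pow_le_pow_right₀ (by norm_num) hH
        rw [pow_succ] at h5
        linarith
      have h5 : (0 : ℝ) < ((V₁.card : ℝ) * V₂.card) / 4 ^ s := by positivity
      have h6 : (4 ^ H + 2) * bd Rb A B < A.card * B.card := by linarith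
      have h7 : (A.card : ℝ) * B.card ≤ 4 * 4 ^ h * bd Rb A B := by linarith
      have h8 : 4 * 4 ^ h * bd Rb A B ≤ (4 ^ H + 2) * bd Rb A B :=
        mul_le_mul_of_nonneg_right h4.le hbdn
      linarith
    obtain ⟨S, hS, hg, S', hS', hg', hR⟩ := hgood
    refine ⟨S ∪ S', ?_, ?_⟩
    · exact union_subset ((hS.trans hA).trans (filter_subset _ _))
        ((hS'.trans hB).trans (filter_subset _ _))
    · rw [pow_succ, mul_comm]
      exact hg.union hg' (fun x hx y hy => hlt x (hA (hS hx)) y (hB (hS' hy))) σ hR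

end Run7.h64.SR
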