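import Pool.Agent.Run7.h64.SR.Multi

/-!
# Homogeneous sets for several relations of bounded sign rank
-/

set_option autoImplicit false

namespace Run7.h64.SR

open Finset

/-- The theorem of Ramsey for any number of colours, in the form needed here. -/
theorem ramsey_multi {κ : Type} [Fintype κ] [Nonempty κ] (χ : ℕ → ℕ → κ) :
    ∀ (m : ℕ) (f : κ → ℕ), ∑ a, f a = m → ∀ V : Finset ℕ,
    (Fintype.card κ + 1) ^ m ≤ V.card → ∃ a, ∃ P ⊆ V, P.card = f a ∧
      ∀ x ∈ P, ∀ y ∈ P, x < y → χ x y = a := by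
  classical
  intro m
  induction m with
  | zero =>
    intro f hf V _
    obtain ⟨a⟩ := (inferInstance : Nonempty κ)
    have h1 : f a = 0 := by
      have := Finset.sum_eq_zero_iff.1 hf a (mem_univ a)
      exact this
    exact ⟨a, ∅, empty_subset _, by rw [card_empty, h1], by simp⟩
  | succ m ih =>
    intro f hf V hV
    by_cases h0 : ∃ a, f a = 0
    · obtain ⟨a, ha⟩ := h0
      exact ⟨a, ∅, empty_subset _, by rw [card_empty, ha], by simp⟩
    push Not at h0
    have hne : V.Nonempty := card_pos.1 (lt_of_lt_of_le (by positivity) hV)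
    set v := V.min' hne with hv
    have hvV : v ∈ V := V.min'_mem hne
    set V' := V.erase v with hV'
    have hlt : ∀ x ∈ V', v < x := fun x hx =>
      lt_of_le_of_ne (V.min'_le x (mem_of_mem_erase hx)) (ne_of_mem_erase hx).symm
    have hc : V'.card = V.card - 1 := card_erase_of_mem hvV
    have hsubV : V' ⊆ V := erase_subset _ _
    have hsum : V'.card = ∑ a, (V'.filter (fun x => χ v x = a)).card :=
      card_eq_sum_card_fiberwise (fun x _ => mem_univ (χ v x))
    have hex : ∃ a, (Fintype.card κ + 1) ^ m ≤ (V'.filter (fun x => χ v x = a)).card := by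
      by_contra hcon
      push Not at hcon
      have h1 : ∑ a, (V'.filter (fun x => χ v x = a)).card ≤
          ∑ _a : κ, ((Fintype.card κ + 1) ^ m - 1) :=
        sum_le_sum fun a _ => by have := hcon a; omega
      rw [sum_const, card_univ, smul_eq_mul] at h1
      have h2 : 1 ≤ (Fintype.card κ + 1) ^ m := Nat.one_le_pow _ _ (by omega)
      have h3 : (Fintype.card κ + 1) ^ (m + 1) =
          Fintype.card κ * (Fintype.card κ + 1) ^ m + (Fintype.card κ + 1) ^ m := by ring
      have h4 : 1 ≤ Fintype.card κ := Fintype.card_pos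
      have h5 : Fintype.card κ * ((Fintype.card κ + 1) ^ m - 1) + Fintype.card κ =
          Fintype.card κ * (Fintype.card κ + 1) ^ m := by
        rw [← Nat.mul_succ]
        congr 1
        omega
      omega
    obtain ⟨a, ha⟩ := hex
    obtain ⟨b, P, hP, hPc, hPR⟩ := ih (fun b => if b = a then f a - 1 else f b) (by
      have h1 : ∑ b, f b = ∑ b, (if b = a then f a - 1 else f b) + 1 := by
        rw [← add_sum_erase univ f (mem_univ a),
          ← add_sum_erase univ (fun b => if b = a then f a - 1 else f b) (mem_univ a)]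
        rw [if_pos rfl]
        have h2 : ∑ b ∈ univ.erase a, (if b = a then f a - 1 else f b) =
            ∑ b ∈ univ.erase a, f b :=
          sum_congr rfl fun b hb => if_neg (ne_of_mem_erase hb)
        rw [h2]
        have h3 := h0 a
        omega
      omega) _ ha
    by_cases hba : b = a
    · subst hba
      rw [if_pos rfl] at hPc
      have hvP : v ∉ P := fun hh => lt_irrefl v (hlt v (filter_subset _ _ (hP hh)))
      refine ⟨b, insert v P, insert_subset hvV ((hP.trans (filter_subset _ _)).trans hsubV),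
        ?_, ?_⟩
      · rw [card_insert_of_notMem hvP, hPc]
        have := h0 b
        omega
      · intro x hx y hy hxy
        rcases mem_insert.1 hx with rfl | hx' <;> rcases mem_insert.1 hy with rfl | hy'
        · exact absurd hxy (lt_irrefl _)
        · exact (mem_filter.1 (hP hy')).2
        · exact absurd (hlt x (mem_filter.1 (hP hx')).1) hxy.not_gt
        · exact hPR x hx' y hy' hxy
    · rw [if_neg hba] at hPc
      exact ⟨b, P, (hP.trans (filter_subset _ _)).trans hsubV, hPc, hPR⟩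

theorem bd_le_sum {t : ℕ} {R : ℕ → ℕ → Prop} {Q : Fin t → ℕ → ℕ → Prop}
    (h : ∀ x y, R x y → ∃ j, Q j x y) (A B : Finset ℕ) : bd R A B ≤ ∑ j, bd (Q j) A B := by
  classical
  unfold bd
  have hcomm : ∑ j, ∑ x ∈ A, ∑ y ∈ B, (if Q j x y then (1 : ℝ) else 0) =
      ∑ x ∈ A, ∑ y ∈ B, ∑ j, (if Q j x y then (1 : ℝ) else 0) := by
    rw [sum_comm]
    refine sum_congr rfl fun x _ => ?_
    rw [sum_comm]
  rw [hcomm]
  refine sum_le_sum fun x _ => sum_le_sum fun y _ => ?_
  by_cases h4 : R x y
  · rw [if_pos h4]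
    obtain ⟨j, hj⟩ := h x y h4
    calc (1 : ℝ) = if Q j x y then (1 : ℝ) else 0 := by rw [if_pos hj]
      _ ≤ _ := single_le_sum (f := fun j => if Q j x y then (1 : ℝ) else 0)
          (fun j _ => by split_ifs <;> norm_num) (mem_univ j)
  · rw [if_neg h4]
    exact sum_nonneg fun j _ => by split_ifs <;> norm_num

/-- The rectangle property for several relations. -/
theorem mrect_of_several {t : ℕ} {R : Fin t → ℕ → ℕ → Prop} {V : Finset ℕ} {D D' K : ℝ} {s s' : ℕ}
    (hK : 0 ≤ K) (hDD : D ≤ D') (hss : s ≤ s')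
    (h : ∀ V₁ ⊆ V, ∀ V₂ ⊆ V, (∀ x ∈ V₁, ∀ y ∈ V₂, x < y) → D ≤ V₁.card →
        V₂.Nonempty → ∃ A ⊆ V₁, ∃ B ⊆ V₂, ∃ σ : Fin t → Bool,
          ((V₁.card : ℝ) * V₂.card) / 4 ^ s ≤ A.card * B.card ∧
          ∀ j, (((t : ℝ) + 1) * K) * bd (fun x y => ¬ (R j x y ↔ σ j = true)) A B ≤
            A.card * B.card) (χ : ℕ → ℕ → Fin t → Bool)
    (hχ : ∀ x y j, χ x y j = true ↔ R j x y) : MRect χ V D' K s' := by
  classical
  intro V₁ hV₁ V₂ hV₂ hlt hbig hne
  obtain ⟨A, hA, B, hB, σ, h1, h2⟩ := h V₁ hV₁ V₂ hV₂ hlt (hDD.trans hbig) hne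
  refine ⟨A, hA, B, hB, σ, ?_, ?_⟩
  · refine le_trans ?_ h1
    apply div_le_div_of_nonneg_left (by positivity) (by positivity)
    exact pow_le_pow_right₀ (by norm_num) hss
  · have h3 : bd (fun x y => χ x y ≠ σ) A B ≤
        ∑ j, bd (fun x y => ¬ (R j x y ↔ σ j = true)) A B := by
      apply bd_le_sum
      intro x y h4
      have h5 : ∃ j, χ x y j ≠ σ j := by
        by_contra h6
        push Not at h6
        exact h4 (funext h6)
      obtain ⟨j, hj⟩ := h5
      refine ⟨j, ?_⟩
      rw [← hχ x y j]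
      intro h7
      exact hj (Bool.eq_iff_iff.2 h7)
    have h4 : ((t : ℝ) + 1) * (K * ∑ j, bd (fun x y => ¬ (R j x y ↔ σ j = true)) A B) ≤
        t * (A.card * B.card) := by
      calc ((t : ℝ) + 1) * (K * ∑ j, bd (fun x y => ¬ (R j x y ↔ σ j = true)) A B) =
            ∑ j, (((t : ℝ) + 1) * K) * bd (fun x y => ¬ (R j x y ↔ σ j = true)) A B := by
              rw [← mul_sum]
              ring
        _ ≤ ∑ _j : Fin t, (A.card : ℝ) * B.card := sum_le_sum fun j _ => h2 j
        _ = t * (A.card * B.card) := by simp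
    have h5 : K * bd (fun x y => χ x y ≠ σ) A B ≤
        K * ∑ j, bd (fun x y => ¬ (R j x y ↔ σ j = true)) A B :=
      mul_le_mul_of_nonneg_left h3 hK
    have ht : (0 : ℝ) ≤ t := Nat.cast_nonneg t
    have h6 : (0 : ℝ) ≤ (A.card : ℝ) * B.card := by positivity
    have h7 : 0 ≤ K * ∑ j, bd (fun x y => ¬ (R j x y ↔ σ j = true)) A B :=
      mul_nonneg hK (sum_nonneg fun j _ => bd_nonneg _ _ _)
    nlinarith

end Run7.h64.SR
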