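import Pool.Agent.Run7.h64.SR.MHom

/-!
# Homogeneous sets for several relations of bounded sign rank, the theorem for pairs
-/

set_option autoImplicit false

namespace Run7.h64.SR

open Finset

theorem one_le_prod_sqrt {ι : Type} (T : Finset ι) (k : ι → ℕ) (hk : ∀ j, 1 ≤ k j) :
    1 ≤ ∏ j ∈ T, Real.sqrt (k j) := by
  have : ∏ _j ∈ T, (1 : ℝ) ≤ ∏ j ∈ T, Real.sqrt (k j) := by
    apply prod_le_prod
    · intro j _
      norm_num
    · intro j _
      apply Real.one_le_sqrt.2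
      exact_mod_cast hk j
  simpa using this

theorem le_prod_sqrt {t : ℕ} (k : Fin t → ℕ) (hk : ∀ j, 1 ≤ k j) (i : Fin t) :
    Real.sqrt (k i) ≤ ∏ j, Real.sqrt (k j) := by
  classical
  rw [← mul_prod_erase univ (fun j => Real.sqrt (k j)) (mem_univ i)]
  exact le_mul_of_one_le_right (Real.sqrt_nonneg _) (one_le_prod_sqrt _ k hk)

theorem clog_le {n : ℕ} (hn : 2 ≤ n) (q : ℕ) (hq : 1 ≤ q) :
    n ^ q ≤ 2 ^ (Nat.clog 2 (n ^ q)) ∧ 2 ^ (Nat.clog 2 (n ^ q)) ≤ 2 * n ^ q ∧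
      ((Nat.clog 2 (n ^ q) : ℕ) : ℝ) ≤ 1.5 * (1 + q) * Real.log n := by
  have hnr : (2 : ℝ) ≤ n := by exact_mod_cast hn
  have hl2 := Real.log_two_gt_d9
  have hlogn : Real.log 2 ≤ Real.log n := Real.log_le_log (by norm_num) hnr
  have hn2 : 1 < n ^ q := Nat.one_lt_pow (by omega) (by omega)
  set H := Nat.clog 2 (n ^ q) with hH
  have hH1 : n ^ q ≤ 2 ^ H := Nat.le_pow_clog (by norm_num) _
  have hH2 : 2 ^ H ≤ 2 * n ^ q := by
    have h1 := Nat.pow_pred_clog_lt_self (b := 2) (by norm_num) hn2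
    rw [← hH] at h1
    have h2 : 0 < H := Nat.clog_pos (by norm_num) hn2
    have h3 : 2 ^ H = 2 * 2 ^ (H.pred) := by
      have h4 : H.pred + 1 = H := Nat.succ_pred_eq_of_pos h2
      rw [← pow_succ', h4]
    omega
  refine ⟨hH1, hH2, ?_⟩
  have hH2r : (2 : ℝ) ^ H ≤ 2 * (n : ℝ) ^ q := by exact_mod_cast hH2
  have h1 : (H : ℝ) * Real.log 2 ≤ Real.log 2 + q * Real.log n := by
    calc (H : ℝ) * Real.log 2 = Real.log (2 ^ H) := by rw [Real.log_pow]
      _ ≤ Real.log (2 * (n : ℝ) ^ q) := Real.log_le_log (by positivity) hH2r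
      _ = Real.log 2 + q * Real.log n := by
          rw [Real.log_mul (by norm_num) (by positivity), Real.log_pow]
  have h2 : (H : ℝ) * Real.log 2 ≤ (1 + q) * Real.log n := by linarith
  have h3 : 0 ≤ (1 + (q : ℝ)) * Real.log n := by positivity
  have h4 : (0 : ℝ) ≤ H := Nat.cast_nonneg H
  nlinarith

/-- `x ^ a ≤ 1.5 ^ (b - a) * x ^ b` in the form which is needed -/
theorem pow_le_pow_mul {ℓ : ℝ} (hℓ : 0.69 < ℓ) (a b : ℕ) : ℓ ^ a ≤ 1.5 ^ b * ℓ ^ (a + b) := by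
  have h1 : 1 ≤ (1.5 * ℓ) ^ b := one_le_pow₀ (by linarith)
  have h2 : 0 < ℓ ^ a := pow_pos (by linarith) _
  calc ℓ ^ a ≤ ℓ ^ a * (1.5 * ℓ) ^ b := le_mul_of_one_le_right h2.le h1
    _ = 1.5 ^ b * ℓ ^ (a + b) := by
        rw [mul_pow, pow_add]
        ring

/-- Homogeneous sets: several relations of bounded sign rank. -/
theorem multi_hom (t : ℕ) : ∃ C : ℝ, 0 < C ∧ ∀ (n : ℕ) (k : Fin t → ℕ), 2 ≤ n → (∀ j, 1 ≤ k j) →
    ∀ (V : Finset ℕ) (R : Fin t → ℕ → ℕ → Prop), (∀ j, SignRankLE (R j) V (k j)) →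
    (2 : ℝ) ^ (C * (∏ j, Real.sqrt (k j)) * Real.log n ^ (t + 2)) ≤ V.card →
    ∃ P ⊆ V, P.card = n ∧ ∃ σ : Fin t → Bool, ∀ x ∈ P, ∀ y ∈ P, x < y →
      ∀ j, R j x y ↔ σ j = true := by
  classical
  set q : ℕ := 2 ^ t with hq
  have hqcard : Fintype.card (Fin t → Bool) = q := by
    rw [Fintype.card_fun, Fintype.card_bool, Fintype.card_fin]
  have hq1 : 1 ≤ q := Nat.one_le_two_pow
  obtain ⟨C₀, hC₀, hsev⟩ := several (2 * q + t + 4) t
  set A₁ : ℝ := 1.5 * (1 + q) * (3 * 1.5 ^ (t + 1) + 2 * C₀ * 2.5 ^ (t + 1) + 6 * 1.5 ^ t) with hA₁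
  set A₂ : ℝ := (t + 1) * q * 1.5 ^ (t + 2) with hA₂
  have hA₁0 : 0 < A₁ := by positivity
  have hA₂0 : 0 < A₂ := by positivity
  refine ⟨A₁ + A₂, by positivity, ?_⟩
  intro n k hn hk V R hR hV
  have hnr : (2 : ℝ) ≤ n := by exact_mod_cast hn
  have hl2 := Real.log_two_gt_d9
  have hlogn : Real.log 2 ≤ Real.log n := Real.log_le_log (by norm_num) hnr
  set ℓ := Real.log n with hℓ
  have hℓ0 : 0.69 < ℓ := by linarith
  have hℓpos : 0 < ℓ := by linarith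
  set P := ∏ j, Real.sqrt (k j) with hP
  have hP1 : 1 ≤ P := one_le_prod_sqrt univ k hk
  set χ : ℕ → ℕ → Fin t → Bool := fun x y j => decide (R j x y) with hχ
  have hχ' : ∀ x y j, χ x y j = true ↔ R j x y := fun x y j => by simp [hχ]
  have hfin : ∀ (σ : Fin t → Bool) (Q : Finset ℕ), (∀ x ∈ Q, ∀ y ∈ Q, x < y → χ x y = σ) →
      ∀ x ∈ Q, ∀ y ∈ Q, x < y → ∀ j, R j x y ↔ σ j = true := by
    intro σ Q h x hx y hy hxy j
    rw [← h x hx y hy hxy]
    exact (hχ' x y j).symm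
  by_cases hcase : ∃ j, n ^ 2 < k j
  · -- the theorem of Ramsey
    obtain ⟨i, hi⟩ := hcase
    have h1 : (n : ℝ) ≤ P := by
      refine le_trans ?_ (le_prod_sqrt k hk i)
      apply Real.le_sqrt_of_sq_le
      exact_mod_cast hi.le
    have h2 : (((q + 1) ^ (q * n) : ℕ) : ℝ) ≤ V.card := by
      refine le_trans ?_ hV
      have h3 : (((q + 1) ^ (q * n) : ℕ) : ℝ) ≤ (2 : ℝ) ^ (((t + 1) * (q * n) : ℕ) : ℝ) := by
        rw [Real.rpow_natCast, pow_mul 2 (t + 1)]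
        push_cast
        apply pow_le_pow_left₀ (by positivity)
        have h4 : q + 1 ≤ 2 ^ (t + 1) := by
          rw [pow_succ]
          omega
        exact_mod_cast h4
      refine h3.trans ?_
      apply Real.rpow_le_rpow_of_exponent_le (by norm_num)
      push_cast
      have h5 := pow_le_pow_mul hℓ0 0 (t + 2)
      rw [pow_zero, zero_add] at h5
      calc ((t : ℝ) + 1) * (q * n) ≤ (t + 1) * (q * n) * (1.5 ^ (t + 2) * ℓ ^ (t + 2)) :=
            le_mul_of_one_le_right (by positivity) h5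
        _ = A₂ * n * ℓ ^ (t + 2) := by rw [hA₂]; ring
        _ ≤ A₂ * P * ℓ ^ (t + 2) := by
            apply mul_le_mul_of_nonneg_right _ (by positivity)
            exact mul_le_mul_of_nonneg_left h1 hA₂0.le
        _ ≤ (A₁ + A₂) * P * ℓ ^ (t + 2) := by
            apply mul_le_mul_of_nonneg_right _ (by positivity)
            apply mul_le_mul_of_nonneg_right _ (by positivity)
            linarith
    have h3 : (Fintype.card (Fin t → Bool) + 1) ^ (q * n) ≤ V.card := by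
      rw [hqcard]
      exact_mod_cast h2
    obtain ⟨a, Q, hQ, hQc, hQR⟩ := ramsey_multi χ (q * n) (fun _ => n)
      (by rw [sum_const, card_univ, hqcard, smul_eq_mul]) V h3
    exact ⟨Q, hQ, hQc, a, hfin a Q hQR⟩
  · push Not at hcase
    obtain ⟨hH1, hH2, hH3⟩ := clog_le hn q hq1
    obtain ⟨hg1, hg2, hg3⟩ := clog_le hn 1 le_rfl
    set H := Nat.clog 2 (n ^ q) with hH
    set g := Nat.clog 2 (n ^ 1) with hg
    have hH2r : (2 : ℝ) ^ H ≤ 2 * (n : ℝ) ^ q := by exact_mod_cast hH2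
    have h4H : (1 : ℝ) ≤ 4 ^ H := one_le_pow₀ (by norm_num)
    have hKle : ((t : ℝ) + 1) * (4 ^ H + 1) ≤ (n : ℝ) ^ (2 * q + t + 4) := by
      have h1 : (4 : ℝ) ^ H = (2 ^ H) ^ 2 := by
        rw [← pow_mul, mul_comm, pow_mul]
        norm_num
      have h2 : ((2 : ℝ) ^ H) ^ 2 ≤ (2 * (n : ℝ) ^ q) ^ 2 := pow_le_pow_left₀ (by positivity) hH2r 2
      have h3 : (4 : ℝ) ^ H + 1 ≤ 8 * ((n : ℝ) ^ q) ^ 2 := by
        rw [h1]
        have h4 : (1 : ℝ) ≤ ((n : ℝ) ^ q) ^ 2 := one_le_pow₀ (one_le_pow₀ (by linarith))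
        nlinarith
      have h5 : (8 : ℝ) ≤ (n : ℝ) ^ 3 := by
        calc (8 : ℝ) = 2 ^ 3 := by norm_num
          _ ≤ (n : ℝ) ^ 3 := pow_le_pow_left₀ (by norm_num) hnr 3
      have h6 : (t : ℝ) + 1 ≤ (n : ℝ) ^ (t + 1) := by
        calc (t : ℝ) + 1 ≤ (2 : ℝ) ^ (t + 1) := by
              have := (Nat.lt_two_pow_self (n := t + 1)).le
              exact_mod_cast this
          _ ≤ (n : ℝ) ^ (t + 1) := pow_le_pow_left₀ (by norm_num) hnr _
      calc ((t : ℝ) + 1) * (4 ^ H + 1) ≤ (n : ℝ) ^ (t + 1) * ((n : ℝ) ^ 3 * ((n : ℝ) ^ q) ^ 2) := by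
            apply mul_le_mul h6 _ (by positivity) (by positivity)
            refine h3.trans ?_
            exact mul_le_mul_of_nonneg_right h5 (by positivity)
        _ = (n : ℝ) ^ (2 * q + t + 4) := by
            rw [← pow_mul, ← pow_add, ← pow_add]
            congr 1
            ring
    have hK1 : 1 ≤ ((t : ℝ) + 1) * (4 ^ H + 1) := by
      have ht : (0 : ℝ) ≤ t := Nat.cast_nonneg t
      nlinarith
    obtain ⟨s, hs, hrect⟩ := hsev n k hn hk hcase (((t : ℝ) + 1) * (4 ^ H + 1)) hK1 hKle V R hR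
    have hM : MRect χ V ((n : ℝ) ^ 2 * 4 ^ s) (4 ^ H + 1) (s + g) :=
      mrect_of_several (by positivity) le_rfl (by omega) hrect χ hχ'
    have hD : (n : ℝ) ^ 2 * 4 ^ s ≤ 2 * 4 ^ (s + g) := by
      rw [pow_one] at hg1
      have h1 : (n : ℝ) ≤ 2 ^ g := by exact_mod_cast hg1
      have h2 : (n : ℝ) ^ 2 ≤ 4 ^ g := by
        calc (n : ℝ) ^ 2 ≤ (2 ^ g) ^ 2 := pow_le_pow_left₀ (by positivity) h1 2
          _ = 4 ^ g := by
              rw [← pow_mul, mul_comm, pow_mul]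
              norm_num
      have h3 : (n : ℝ) ^ 2 * 4 ^ s ≤ 4 ^ g * 4 ^ s := mul_le_mul_of_nonneg_right h2 (by positivity)
      have h4 : (0 : ℝ) < 4 ^ g * 4 ^ s := by positivity
      rw [pow_add]
      linarith
    have hbig : ((8 * 4 ^ (s + g) : ℕ) : ℝ) ^ H ≤ V.card := by
      refine le_trans ?_ hV
      have h1 : ((8 * 4 ^ (s + g) : ℕ) : ℝ) ^ H = (2 : ℝ) ^ (((3 + 2 * (s + g)) * H : ℕ) : ℝ) := by
        rw [Real.rpow_natCast, pow_mul]
        congr 1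
        rw [pow_add 2 3, pow_mul 2 2]
        norm_num
      rw [h1]
      apply Real.rpow_le_rpow_of_exponent_le (by norm_num)
      push_cast at hg3 ⊢
      have h2 : 1 + ℓ ≤ 2.5 * ℓ := by linarith
      have h3 : (s : ℝ) ≤ C₀ * P * (2.5 ^ (t + 1) * ℓ ^ (t + 1)) := by
        refine hs.trans ?_
        rw [← mul_pow]
        exact mul_le_mul_of_nonneg_left (pow_le_pow_left₀ (by linarith) h2 _) (by positivity)
      have h4 : (3 : ℝ) ≤ P * (3 * 1.5 ^ (t + 1) * ℓ ^ (t + 1)) := by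
        have h5 := pow_le_pow_mul hℓ0 0 (t + 1)
        rw [pow_zero, zero_add] at h5
        have h6 : (3 : ℝ) ≤ 3 * 1.5 ^ (t + 1) * ℓ ^ (t + 1) := by linarith
        have h7 : 0 ≤ 3 * 1.5 ^ (t + 1) * ℓ ^ (t + 1) := by positivity
        nlinarith
      have h5 : (g : ℝ) ≤ P * (3 * 1.5 ^ t * ℓ ^ (t + 1)) := by
        have h6 := pow_le_pow_mul hℓ0 1 t
        rw [pow_one, add_comm 1 t] at h6
        have h7 : (g : ℝ) ≤ 3 * 1.5 ^ t * ℓ ^ (t + 1) := by linarith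
        have h8 : 0 ≤ 3 * 1.5 ^ t * ℓ ^ (t + 1) := by positivity
        nlinarith
      have h6 : 3 + 2 * ((s : ℝ) + g) ≤ (3 * 1.5 ^ (t + 1) + 2 * C₀ * 2.5 ^ (t + 1) +
          6 * 1.5 ^ t) * (P * ℓ ^ (t + 1)) := by
        calc 3 + 2 * ((s : ℝ) + g) ≤ P * (3 * 1.5 ^ (t + 1) * ℓ ^ (t + 1)) +
              2 * (C₀ * P * (2.5 ^ (t + 1) * ℓ ^ (t + 1)) + P * (3 * 1.5 ^ t * ℓ ^ (t + 1))) := by
                linarith
          _ = _ := by ring
      calc (3 + 2 * ((s : ℝ) + g)) * H ≤ (3 * 1.5 ^ (t + 1) + 2 * C₀ * 2.5 ^ (t + 1) +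
            6 * 1.5 ^ t) * (P * ℓ ^ (t + 1)) * (1.5 * (1 + q) * ℓ) :=
            mul_le_mul h6 hH3 (Nat.cast_nonneg _) (by positivity)
        _ = A₁ * P * ℓ ^ (t + 2) := by rw [hA₁]; ring
        _ ≤ (A₁ + A₂) * P * ℓ ^ (t + 2) := by
            apply mul_le_mul_of_nonneg_right _ (by positivity)
            apply mul_le_mul_of_nonneg_right _ (by positivity)
            linarith
    obtain ⟨S, hS, hgood⟩ := miterate hM hD H le_rfl V (Subset.refl _) hbig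
    obtain ⟨a, Q, hQ, hQc, hQR⟩ := hgood.extract (n := n) (by rw [hqcard]; exact hH1) (by omega)
    exact ⟨Q, hQ.trans hS, hQc, a, hfin a Q hQR⟩

end Run7.h64.SR
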