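import Pool.Agent.Run7.h64.SR.Num

/-!
# The choice of the parameters, second version
-/

set_option autoImplicit false

namespace Run7.h64.SR

theorem params2 (d : ℕ) (hd : 1 ≤ d) (K : ℝ) (hK : 1 ≤ K) : ∃ (T : ℝ) (s : ℕ), 0 < T ∧ 2 ≤ T ^ 2 ∧
    12 * Real.exp (-(T ^ 2 / 2)) ≤ 1 / Real.sqrt (8 * d) / (2 * T ^ 2) ∧
    12 * Real.exp (-(T ^ 2 / 2)) * s ≤ 1 ∧
    8 * d * (3 * K + 1) ≤ (1 + 1 / Real.sqrt (8 * d) / (2 * T ^ 2)) ^ s ∧
    (s : ℝ) ≤ 48 * Real.log (8 * d * Real.log (8 * d * (3 * K + 1))) *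
      Real.log (8 * d * (3 * K + 1)) * Real.sqrt (8 * d) + 1 ∧
    Real.log (8 * d * (3 * K + 1)) ≤ s := by
  have hdr : (1 : ℝ) ≤ d := by exact_mod_cast hd
  set A : ℝ := 8 * d * (3 * K + 1) with hA
  have hA32 : 32 ≤ A := by
    rw [hA]
    nlinarith
  set Λ := Real.log A with hΛ
  have hΛ3 : 3 ≤ Λ := by
    rw [hΛ, Real.le_log_iff_exp_le (by linarith)]
    have h1 := Real.exp_one_lt_d9
    have h2 : Real.exp 3 = Real.exp 1 ^ 3 := by rw [← Real.exp_nat_mul]; norm_num
    rw [h2]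
    calc Real.exp 1 ^ 3 ≤ 2.72 ^ 3 := pow_le_pow_left₀ (Real.exp_pos _).le (by linarith) 3
      _ ≤ 32 := by norm_num
      _ ≤ A := hA32
  have hexpΛ : Real.exp Λ = A := Real.exp_log (by linarith)
  set B : ℝ := 8 * d * Λ with hB
  have hB24 : 24 ≤ B := by
    rw [hB]
    nlinarith
  have hBpos : 0 < B := by linarith
  set M := Real.log B with hM
  have hM1 : 1 ≤ M := by
    rw [hM, Real.le_log_iff_exp_le (by linarith)]
    have := Real.exp_one_lt_d9
    linarith
  have hMB : M ≤ B := by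
    have := Real.log_le_sub_one_of_pos (show 0 < B by linarith)
    linarith
  have hΛB : Λ ≤ B := by
    rw [hB]
    nlinarith
  have hexpM : Real.exp M = B := Real.exp_log hBpos
  set r := Real.sqrt (8 * d) with hr
  have hr1 : 1 ≤ r := by
    rw [hr]
    apply Real.one_le_sqrt.2
    linarith
  have hrB : r ≤ B := by
    have h1 : r ^ 2 = 8 * d := Real.sq_sqrt (by positivity)
    have h2 : (8 : ℝ) * d ≤ B := by
      rw [hB]
      nlinarith
    nlinarith
  set s := ⌈48 * M * Λ * r⌉₊ with hs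
  have hs1 : 48 * M * Λ * r ≤ s := Nat.le_ceil _
  have hs2 : (s : ℝ) ≤ 48 * M * Λ * r + 1 := (Nat.ceil_lt_add_one (by positivity)).le
  have hT2 : Real.sqrt (12 * M) ^ 2 = 12 * M := Real.sq_sqrt (by positivity)
  have he : Real.exp (-(Real.sqrt (12 * M) ^ 2 / 2)) = 1 / B ^ 6 := by
    rw [hT2]
    have : -(12 * M / 2) = -(6 * M) := by ring
    rw [this, Real.exp_neg, ← hexpM, ← Real.exp_nat_mul]
    norm_num
  have hlogs : Λ ≤ s := by
    refine le_trans ?_ hs1
    have h1 : 1 ≤ M * r := by nlinarith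
    nlinarith
  refine ⟨Real.sqrt (12 * M), s, Real.sqrt_pos.2 (by positivity), ?_, ?_, ?_, ?_, hs2, hlogs⟩
  · rw [hT2]
    linarith
  · rw [he, hT2, div_div, mul_one_div, div_le_div_iff₀ (by positivity) (by positivity)]
    have h1 : r * (2 * (12 * M)) ≤ B * (2 * (12 * B)) := by
      apply mul_le_mul hrB (by linarith) (by positivity) (by positivity)
    have h2 : 12 * (B * (2 * (12 * B))) ≤ 1 * B ^ 6 := by
      have h3 : (288 : ℝ) ≤ B ^ 4 := by
        calc (288 : ℝ) ≤ 24 ^ 4 := by norm_num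
          _ ≤ B ^ 4 := pow_le_pow_left₀ (by norm_num) hB24 4
      have h4 : 12 * (B * (2 * (12 * B))) = 288 * B ^ 2 := by ring
      have h5 : 1 * B ^ 6 = B ^ 4 * B ^ 2 := by ring
      rw [h4, h5]
      exact mul_le_mul_of_nonneg_right h3 (by positivity)
    linarith
  · rw [he]
    have h1 : (s : ℝ) ≤ 49 * B ^ 3 := by
      have h2 : 48 * M * Λ * r ≤ 48 * B * B * B := by
        apply mul_le_mul _ hrB (by positivity) (by positivity)
        apply mul_le_mul _ hΛB (by positivity) (by positivity)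
        linarith
      have h3 : (1 : ℝ) ≤ B := by linarith
      have h5 : 1 ≤ B ^ 3 := one_le_pow₀ h3
      nlinarith
    have h2 : (588 : ℝ) ≤ B ^ 3 := by
      calc (588 : ℝ) ≤ 24 ^ 3 := by norm_num
        _ ≤ B ^ 3 := pow_le_pow_left₀ (by norm_num) hB24 3
    have h3 : 12 * (1 / B ^ 6) * (s : ℝ) ≤ 12 * (1 / B ^ 6) * (49 * B ^ 3) :=
      mul_le_mul_of_nonneg_left h1 (by positivity)
    have h4 : 12 * (1 / B ^ 6) * (49 * B ^ 3) = 588 / B ^ 3 := by
      field_simp
      ring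
    rw [h4] at h3
    refine h3.trans ?_
    rw [div_le_one (by positivity)]
    exact h2
  · rw [hT2]
    set x := 1 / r / (2 * (12 * M)) with hx
    have hx0 : 0 < x := by positivity
    have hx1 : x ≤ 1 := by
      rw [hx, div_div, div_le_one (by positivity)]
      nlinarith
    calc A = Real.exp Λ := hexpΛ.symm
      _ ≤ Real.exp (s * (x / 2)) := by
          apply Real.exp_le_exp.2
          have h1 : (48 * M * Λ * r) * (x / 2) = Λ := by
            rw [hx]
            field_simp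
            ring
          calc Λ = (48 * M * Λ * r) * (x / 2) := h1.symm
            _ ≤ s * (x / 2) := mul_le_mul_of_nonneg_right hs1 (by positivity)
      _ = Real.exp (x / 2) ^ s := by rw [← Real.exp_nat_mul]
      _ ≤ (1 + x) ^ s := pow_le_pow_left₀ (Real.exp_pos _).le (exp_half_le hx0.le hx1) s

end Run7.h64.SR
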