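import Pool.Agent.Run7.h64.SR.Iter
import Pool.Agent.Run7.h64.SR.Num2

/-!
# From biased rectangles to homogeneous sets: any number of colours
-/

set_option autoImplicit false

namespace Run7.h64.SR

open Finset

/-- good sets -/
def MGood {κ : Type} [Fintype κ] (χ : ℕ → ℕ → κ) (m : ℕ) (S : Finset ℕ) : Prop :=
  S.card = m ∧ ∃ P : κ → Finset ℕ, (∀ a, P a ⊆ S) ∧
    (∀ a, ∀ x ∈ P a, ∀ y ∈ P a, x < y → χ x y = a) ∧ m ≤ ∏ a, (P a).card

theorem prod_split {κ : Type} [Fintype κ] [DecidableEq κ] (a : κ) (f g : κ → ℕ) :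
    ∏ b, f b + ∏ b, g b ≤ ∏ b, if b = a then f b + g b else max (f b) (g b) := by
  rw [← mul_prod_erase univ f (mem_univ a), ← mul_prod_erase univ g (mem_univ a),
    ← mul_prod_erase univ (fun b => if b = a then f b + g b else max (f b) (g b)) (mem_univ a)]
  rw [if_pos rfl]
  have h1 : ∏ b ∈ univ.erase a, f b ≤
      ∏ b ∈ univ.erase a, if b = a then f b + g b else max (f b) (g b) := by
    apply prod_le_prod' 
    intro b hb
    rw [if_neg (ne_of_mem_erase hb)]
    exact le_max_left _ _
  have h2 : ∏ b ∈ univ.erase a, g b ≤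
      ∏ b ∈ univ.erase a, if b = a then f b + g b else max (f b) (g b) := by
    apply prod_le_prod' 
    intro b hb
    rw [if_neg (ne_of_mem_erase hb)]
    exact le_max_right _ _
  calc f a * ∏ b ∈ univ.erase a, f b + g a * ∏ b ∈ univ.erase a, g b
      ≤ f a * (∏ b ∈ univ.erase a, if b = a then f b + g b else max (f b) (g b)) +
        g a * (∏ b ∈ univ.erase a, if b = a then f b + g b else max (f b) (g b)) :=
        add_le_add (Nat.mul_le_mul_left _ h1) (Nat.mul_le_mul_left _ h2)
    _ = _ := by rw [add_mul]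

theorem MGood.union {κ : Type} [Fintype κ] {χ : ℕ → ℕ → κ} {m : ℕ} {S S' : Finset ℕ}
    (h : MGood χ m S) (h' : MGood χ m S') (hlt : ∀ x ∈ S, ∀ y ∈ S', x < y) (a : κ)
    (hR : ∀ x ∈ S, ∀ y ∈ S', χ x y = a) : MGood χ (2 * m) (S ∪ S') := by
  classical
  obtain ⟨hc, P, hP, hPR, hm⟩ := h
  obtain ⟨hc', P', hP', hPR', hm'⟩ := h'
  have hdisj : Disjoint S S' := by
    rw [disjoint_left]
    intro x hx hx'
    exact lt_irrefl _ (hlt x hx x hx')
  have hcard : (S ∪ S').card = 2 * m := by
    rw [card_union_of_disjoint hdisj, hc, hc']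
    ring
  refine ⟨hcard, fun b => if b = a then P b ∪ P' b else
    if (P' b).card ≤ (P b).card then P b else P' b, ?_, ?_, ?_⟩
  · intro b
    show (if b = a then P b ∪ P' b else if (P' b).card ≤ (P b).card then P b else P' b) ⊆ S ∪ S'
    split_ifs
    · exact union_subset_union (hP b) (hP' b)
    · exact (hP b).trans subset_union_left
    · exact (hP' b).trans subset_union_right
  · intro b
    show ∀ x ∈ (if b = a then P b ∪ P' b else if (P' b).card ≤ (P b).card then P b else P' b),
      ∀ y ∈ (if b = a then P b ∪ P' b else if (P' b).card ≤ (P b).card then P b else P' b),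
      x < y → χ x y = b
    split_ifs with h1 h2
    · subst h1
      intro x hx y hy hxy
      rw [mem_union] at hx hy
      rcases hx with hx | hx <;> rcases hy with hy | hy
      · exact hPR _ x hx y hy hxy
      · exact hR x (hP _ hx) y (hP' _ hy)
      · exact absurd (hlt y (hP _ hy) x (hP' _ hx)) hxy.not_gt
      · exact hPR' _ x hx y hy hxy
    · exact hPR b
    · exact hPR' b
  · calc 2 * m = m + m := by ring
      _ ≤ ∏ b, (P b).card + ∏ b, (P' b).card := add_le_add hm hm'
      _ ≤ ∏ b, if b = a then (P b).card + (P' b).card else max (P b).card (P' b).card :=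
          prod_split a _ _
      _ = _ := by
          refine prod_congr rfl fun b _ => ?_
          show _ = (if b = a then P b ∪ P' b else
            if (P' b).card ≤ (P b).card then P b else P' b).card
          by_cases h1 : b = a
          · rw [if_pos h1, if_pos h1, card_union_of_disjoint (disjoint_of_subset_left (hP b)
              (disjoint_of_subset_right (hP' b) hdisj))]
          · rw [if_neg h1, if_neg h1]
            by_cases h2 : (P' b).card ≤ (P b).card
            · rw [if_pos h2]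
              exact max_eq_left h2
            · rw [if_neg h2]
              exact max_eq_right (not_le.1 h2).le

/-- the rectangle property -/
def MRect {κ : Type} (χ : ℕ → ℕ → κ) (V : Finset ℕ) (D K : ℝ) (s : ℕ) : Prop :=
  ∀ V₁ ⊆ V, ∀ V₂ ⊆ V, (∀ x ∈ V₁, ∀ y ∈ V₂, x < y) → D ≤ V₁.card → V₂.Nonempty →
    ∃ A ⊆ V₁, ∃ B ⊆ V₂, ∃ a : κ, ((V₁.card : ℝ) * V₂.card) / 4 ^ s ≤ A.card * B.card ∧
      K * bd (fun x y => χ x y ≠ a) A B ≤ A.card * B.card

theorem miterate {κ : Type} [Fintype κ] {χ : ℕ → ℕ → κ} {V : Finset ℕ} {H s : ℕ} {D : ℝ}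
    (hrect : MRect χ V D (4 ^ H + 1) s) (hs : D ≤ 2 * 4 ^ s) :
    ∀ h ≤ H, ∀ W ⊆ V, ((8 * 4 ^ s : ℕ) : ℝ) ^ h ≤ W.card → ∃ S ⊆ W, MGood χ (2 ^ h) S := by
  classical
  intro h
  induction h with
  | zero =>
    intro _ W hW hc
    rw [pow_zero] at hc
    have hc' : 1 ≤ W.card := by exact_mod_cast hc
    obtain ⟨x, hx⟩ := card_pos.1 hc'
    refine ⟨{x}, singleton_subset_iff.2 hx, by simp, fun _ => {x}, fun _ => Subset.refl _,
      ?_, by simp⟩
    intro c a ha b hb hab
    rw [mem_singleton] at ha hb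
    omega
  | succ h ih =>
    intro hH W hW hc
    have ih' := ih (by omega)
    set Q : ℝ := ((8 * 4 ^ s : ℕ) : ℝ) with hQ
    have hQ8 : Q = 8 * 4 ^ s := by rw [hQ]; push_cast; ring
    have h4s : (1 : ℝ) ≤ 4 ^ s := one_le_pow₀ (by norm_num)
    have hQh : 1 ≤ Q ^ h := one_le_pow₀ (by rw [hQ8]; linarith)
    -- the cut
    obtain ⟨t, ht⟩ := exists_cut W (W.card / 2) (Nat.div_le_self _ _)
    set V₁ := W.filter (fun x => x < t) with hV₁
    set V₂ := W.filter (fun x => ¬ x < t) with hV₂
    have hsum : V₁.card + V₂.card = W.card := card_filter_add_card_filter_not _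
    have hlt : ∀ x ∈ V₁, ∀ y ∈ V₂, x < y := by
      intro x hx y hy
      have h1 := (mem_filter.1 hx).2
      have h2 := (mem_filter.1 hy).2
      omega
    have hW1 : ((W.card : ℝ) - 1) / 2 ≤ V₁.card := by
      have h1 : W.card ≤ 2 * V₁.card + 1 := by omega
      have h2 : (W.card : ℝ) ≤ 2 * V₁.card + 1 := by exact_mod_cast h1
      linarith
    have hW2 : ((W.card : ℝ) - 1) / 2 ≤ V₂.card := by
      have h1 : W.card ≤ 2 * V₂.card + 1 := by omega
      have h2 : (W.card : ℝ) ≤ 2 * V₂.card + 1 := by exact_mod_cast h1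
      linarith
    have hbig : 8 * 4 ^ s * Q ^ h ≤ W.card := by
      rw [← hQ8, ← pow_succ']
      exact hc
    have hbig2 : 2 * 4 ^ s * Q ^ h ≤ ((W.card : ℝ) - 1) / 2 := by
      have h1 : 1 ≤ 4 ^ s * Q ^ h := by nlinarith
      linarith
    have h1Q : 4 ^ s ≤ 4 ^ s * Q ^ h := le_mul_of_one_le_right (by positivity) hQh
    have hV1d : D ≤ V₁.card := by linarith
    have hV2pos : 0 < V₂.card := by
      have h2 : (0 : ℝ) < V₂.card := by linarith
      exact_mod_cast h2
    have hV1pos : (0 : ℝ) < V₁.card := by linarith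
    have hV2pos' : (0 : ℝ) < V₂.card := by exact_mod_cast hV2pos
    obtain ⟨A, hA, B, hB, a, hABc, hbad⟩ := hrect V₁ ((filter_subset _ _).trans hW) V₂
      ((filter_subset _ _).trans hW) hlt hV1d (card_pos.1 hV2pos)
    set Rb : ℕ → ℕ → Prop := fun x y => χ x y ≠ a with hRb
    have hbdn := bd_nonneg Rb A B
    have hAc : (A.card : ℝ) ≤ V₁.card := by exact_mod_cast card_le_card hA
    have hBc : (B.card : ℝ) ≤ V₂.card := by exact_mod_cast card_le_card hB
    have hA2 : 2 * Q ^ h ≤ A.card := by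
      have h1 : ((V₁.card : ℝ) * V₂.card) / 4 ^ s ≤ A.card * V₂.card :=
        hABc.trans (mul_le_mul_of_nonneg_left hBc (Nat.cast_nonneg _))
      have h2 : (V₁.card : ℝ) / 4 ^ s ≤ A.card := by
        have h3 : ((V₁.card : ℝ) * V₂.card) / 4 ^ s = (V₁.card : ℝ) / 4 ^ s * V₂.card := by ring
        rw [h3] at h1
        exact le_of_mul_le_mul_right h1 hV2pos'
      refine le_trans ?_ h2
      rw [le_div_iff₀ (by positivity)]
      linarith
    have hB2 : 2 * Q ^ h ≤ B.card := by
      have h1 : ((V₁.card : ℝ) * V₂.card) / 4 ^ s ≤ V₁.card * B.card :=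
        hABc.trans (mul_le_mul_of_nonneg_right hAc (Nat.cast_nonneg _))
      have h2 : (V₂.card : ℝ) / 4 ^ s ≤ B.card := by
        have h3 : ((V₁.card : ℝ) * V₂.card) / 4 ^ s = V₁.card * ((V₂.card : ℝ) / 4 ^ s) := by ring
        rw [h3] at h1
        exact le_of_mul_le_mul_left h1 hV1pos
      refine le_trans ?_ h2
      rw [le_div_iff₀ (by positivity)]
      linarith
    have hA' : A ⊆ V := (hA.trans (filter_subset _ _)).trans hW
    have hB' : B ⊆ V := (hB.trans (filter_subset _ _)).trans hW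
    -- a perfect pair
    have hgood : ∃ S ⊆ A, MGood χ (2 ^ h) S ∧ ∃ S' ⊆ B, MGood χ (2 ^ h) S' ∧
        ∀ x ∈ S, ∀ y ∈ S', χ x y = a := by
      by_contra hcon0
      have hcon : ∀ S ⊆ A, MGood χ (2 ^ h) S → ∀ S' ⊆ B, MGood χ (2 ^ h) S' →
          ∃ x ∈ S, ∃ y ∈ S', Rb x y := by
        intro S hS hg S' hS' hg'
        by_contra hc'
        apply hcon0
        refine ⟨S, hS, hg, S', hS', hg', ?_⟩
        intro x hx y hy
        by_contra hxy
        exact hc' ⟨x, hx, y, hy, hxy⟩
      have h1 := bad_two (R := Rb) (F := MGood χ (2 ^ h)) (m := 2 ^ h) (L := Q ^ h)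
        (Nat.one_le_two_pow) (B := B) (by linarith)
        (fun W' hW' hc' => by
          obtain ⟨S, hS, hg⟩ := ih' W' (hW'.trans hB') hc'
          exact ⟨S, hS, hg, hg.1⟩) A.card A rfl
        (fun W' hW' hc' => by
          obtain ⟨S, hS, hg⟩ := ih' W' (hW'.trans hA') hc'
          exact ⟨S, hS, hg, hg.1⟩)
        (fun S hS hg S' hS' hg' => hcon S hS hg S' hS' hg')
      have h2 : (A.card : ℝ) * B.card / 4 ≤ (A.card - Q ^ h) * (B.card - Q ^ h) := by
        have h3 : (A.card : ℝ) / 2 ≤ A.card - Q ^ h := by linarith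
        have h4 : (B.card : ℝ) / 2 ≤ B.card - Q ^ h := by linarith
        calc (A.card : ℝ) * B.card / 4 = (A.card : ℝ) / 2 * (B.card / 2) := by ring
          _ ≤ _ := mul_le_mul h3 h4 (by positivity) (by linarith)
      have h3 : (((2 ^ h : ℕ) : ℝ)) ^ 2 = 4 ^ h := by
        push_cast
        rw [← pow_mul, mul_comm, pow_mul]
        norm_num
      rw [h3] at h1
      have h4 : (4 : ℝ) ^ H + 1 > 4 * 4 ^ h := by
        have h5 : (4 : ℝ) ^ (h + 1) ≤ 4 ^ H := pow_le_pow_right₀ (by norm_num) hH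
        rw [pow_succ] at h5
        linarith
      have h5 : (0 : ℝ) < A.card * B.card := by
        have : (0 : ℝ) < ((V₁.card : ℝ) * V₂.card) / 4 ^ s := by positivity
        linarith
      have h7 : (A.card : ℝ) * B.card ≤ 4 * 4 ^ h * bd Rb A B := by linarith
      have h8 : 0 < bd Rb A B := by
        by_contra h9
        have h10 : bd Rb A B = 0 := le_antisymm (not_lt.1 h9) hbdn
        rw [h10] at h7
        linarith
      have h9 : 4 * 4 ^ h * bd Rb A B < (4 ^ H + 1) * bd Rb A B :=
        mul_lt_mul_of_pos_right h4 h8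
      linarith
    obtain ⟨S, hS, hg, S', hS', hg', hR⟩ := hgood
    refine ⟨S ∪ S', ?_, ?_⟩
    · exact union_subset ((hS.trans hA).trans (filter_subset _ _))
        ((hS'.trans hB).trans (filter_subset _ _))
    · rw [pow_succ, mul_comm]
      exact hg.union hg' (fun x hx y hy => hlt x (hA (hS hx)) y (hB (hS' hy))) a hR

/-- extraction of a homogeneous set -/
theorem MGood.extract {κ : Type} [Fintype κ] {χ : ℕ → ℕ → κ} {m n : ℕ} {S : Finset ℕ}
    (h : MGood χ m S) (hm : n ^ Fintype.card κ ≤ m) (hn : 1 ≤ n) :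
    ∃ a, ∃ P ⊆ S, P.card = n ∧ ∀ x ∈ P, ∀ y ∈ P, x < y → χ x y = a := by
  classical
  obtain ⟨hc, P, hP, hPR, hprod⟩ := h
  have hex : ∃ a, n ≤ (P a).card := by
    by_contra hcon
    push Not at hcon
    rcases isEmpty_or_nonempty κ with hκ | hκ
    · -- no colours
      have h1 : S.card = m := hc
      have h2 : m ≤ 1 := by simpa using hprod
      have h3 : 1 ≤ m := by
        have : n ^ Fintype.card κ = 1 := by
          rw [Fintype.card_eq_zero, pow_zero]
        omega
      -- then `S` is a point and there is a homogeneous set of size one only if there is a colour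
      exact absurd hcon (by
        intro _
        exact (hκ.false (χ 0 0)).elim)
    · have h1 : ∏ a, (P a).card < n ^ Fintype.card κ := by
        have h2 : ∏ a, (P a).card ≤ (n - 1) ^ Fintype.card κ := by
          calc ∏ a, (P a).card ≤ ∏ _a : κ, (n - 1) :=
                prod_le_prod' fun a _ => by have := hcon a; omega
            _ = (n - 1) ^ Fintype.card κ := by rw [prod_const, card_univ]
        have h3 : (n - 1) ^ Fintype.card κ < n ^ Fintype.card κ :=
          Nat.pow_lt_pow_left (by omega) Fintype.card_ne_zero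
        omega
      omega
  obtain ⟨a, ha⟩ := hex
  obtain ⟨P', hP', hc'⟩ := exists_subset_card_eq ha
  exact ⟨a, P', hP'.trans (hP a), hc', fun x hx y hy hxy => hPR a x (hP' hx) y (hP' hy) hxy⟩

end Run7.h64.SR
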