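import Pool.Agent.Run7.h64.SR.MIter
import Pool.Agent.Run7.h64.SR.Defs

/-!
# Several relations of bounded sign rank: common biased rectangles
-/

set_option autoImplicit false

namespace Run7.h64.SR

open Finset

theorem bd_congr {R R' : ℕ → ℕ → Prop} {A B : Finset ℕ}
    (h : ∀ x ∈ A, ∀ y ∈ B, (R x y ↔ R' x y)) : bd R A B = bd R' A B := by
  classical
  unfold bd
  refine sum_congr rfl fun x hx => sum_congr rfl fun y hy => ?_
  simp only [h x hx y hy]

theorem bd_mono {R : ℕ → ℕ → Prop} {A B A' B' : Finset ℕ} (hA : A ⊆ A') (hB : B ⊆ B') :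
    bd R A B ≤ bd R A' B' := by
  rw [bd_split_left R B' hA]
  have h1 := bd_nonneg R (A' \ A) B'
  have h2 := bd_split_right R A hB
  have h3 := bd_nonneg R A (B' \ B)
  linarith

/-- one relation -/
theorem single {R : ℕ → ℕ → Prop} {V : Finset ℕ} {d : ℕ} (hR : SignRankLE R V d) (hd : 1 ≤ d) {K : ℝ}
    (hK : 1 ≤ K) : ∃ s : ℕ, (s : ℝ) ≤ 48 * Real.log (8 * d * Real.log (8 * d * (3 * K + 1))) *
      Real.log (8 * d * (3 * K + 1)) * Real.sqrt (8 * d) + 1 ∧
      ∀ V₁ ⊆ V, ∀ V₂ ⊆ V, (∀ x ∈ V₁, ∀ y ∈ V₂, x < y) → d ≤ V₁.card → V₂.Nonempty →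
        ∃ A ⊆ V₁, ∃ B ⊆ V₂, ∃ σ : Bool, ((V₁.card : ℝ) * V₂.card) / 4 ^ s ≤ A.card * B.card ∧
          K * bd (fun x y => ¬ (R x y ↔ σ = true)) A B ≤ A.card * B.card := by
  classical
  obtain ⟨a, b, hab⟩ := hR
  have hne : ∀ x ∈ V, ∀ y ∈ V, x < y → ∑ i, a x i * b y i ≠ 0 := by
    intro x hx y hy hxy
    by_cases h : R x y
    · exact ((hab x hx y hy hxy).1 h).ne'
    · exact ((hab x hx y hy hxy).2 h).ne
  have hiff : ∀ x ∈ V, ∀ y ∈ V, x < y → (R x y ↔ 0 < ∑ i, a x i * b y i) := by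
    intro x hx y hy hxy
    refine ⟨(hab x hx y hy hxy).1, fun h => ?_⟩
    by_contra h2
    have := (hab x hx y hy hxy).2 h2
    linarith
  obtain ⟨T, s, hT, hT2, n1, n2, n3, hs, -⟩ := params2 d hd K hK
  refine ⟨s, hs, ?_⟩
  intro V₁ hV₁ V₂ hV₂ hlt hdV hne₂
  have hne' : Nonempty {y // y ∈ V₂} := ⟨⟨hne₂.choose, hne₂.choose_spec⟩⟩
  set e := V₁.equivFin.symm with he
  obtain ⟨A₀, B₀, σ, hAB⟩ := rect (N := V₁.card) (Y := {y // y ∈ V₂}) (by omega) hdV hd
    (fun i => a (e i : ℕ)) (fun y => b (y : ℕ))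
    (fun x y => hne _ (hV₁ (e x).2) _ (hV₂ y.2) (hlt _ (e x).2 _ y.2)) T K s hT hT2 hK n1 n2 n3
  let ι : Fin V₁.card ↪ ℕ := ⟨fun i => (e i : ℕ), fun i j h => e.injective (Subtype.ext h)⟩
  set A := A₀.map ι with hA
  set B := B₀.map (Function.Embedding.subtype _) with hB
  have hA1 : A ⊆ V₁ := by
    intro x hx
    obtain ⟨i, -, rfl⟩ := mem_map.1 hx
    exact (e i).2
  have hB1 : B ⊆ V₂ := by
    intro x hx
    obtain ⟨i, -, rfl⟩ := mem_map.1 hx
    exact i.2
  have hAB' : ((V₁.card : ℝ) * V₂.card) / 4 ^ s ≤ ∑ x ∈ A, ∑ y ∈ B,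
      if (0 < ∑ i, a x i * b y i ↔ σ = true) then (1 : ℝ) else -K := by
    rw [Fintype.card_coe] at hAB
    rw [hA, hB, sum_map]
    simp only [sum_map]
    exact hAB
  have hsplit : ∑ x ∈ A, ∑ y ∈ B,
      (if (0 < ∑ i, a x i * b y i ↔ σ = true) then (1 : ℝ) else -K) =
        A.card * B.card - (K + 1) * bd (fun x y => ¬ (R x y ↔ σ = true)) A B := by
    unfold bd
    rw [mul_sum]
    have h1 : (A.card : ℝ) * B.card = ∑ x ∈ A, ∑ y ∈ B, (1 : ℝ) := by
      simp
    rw [h1, ← sum_sub_distrib]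
    refine sum_congr rfl fun x hx => ?_
    rw [mul_sum, ← sum_sub_distrib]
    refine sum_congr rfl fun y hy => ?_
    have hxy := hiff x (hV₁ (hA1 hx)) y (hV₂ (hB1 hy)) (hlt x (hA1 hx) y (hB1 hy))
    by_cases h : (R x y ↔ σ = true)
    · have h' : (0 < ∑ i, a x i * b y i ↔ σ = true) := hxy.symm.trans h
      rw [if_pos h', if_neg (not_not.2 h)]
      ring
    · have h' : ¬ (0 < ∑ i, a x i * b y i ↔ σ = true) := fun h2 => h (hxy.trans h2)
      rw [if_neg h', if_pos h]
      ring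
  rw [hsplit] at hAB'
  have hb := bd_nonneg (fun x y => ¬ (R x y ↔ σ = true)) A B
  have hpos : 0 ≤ ((V₁.card : ℝ) * V₂.card) / 4 ^ s := by positivity
  refine ⟨A, hA1, B, hB1, σ, ?_, ?_⟩
  · nlinarith
  · nlinarith

/-- several relations -/
theorem several (b t : ℕ) : ∃ C : ℝ, 1 ≤ C ∧ ∀ (n : ℕ) (k : Fin t → ℕ), 2 ≤ n → (∀ j, 1 ≤ k j) →
    (∀ j, k j ≤ n ^ 2) → ∀ K : ℝ, 1 ≤ K → K ≤ (n : ℝ) ^ b → ∀ (V : Finset ℕ)
    (R : Fin t → ℕ → ℕ → Prop), (∀ j, SignRankLE (R j) V (k j)) →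
    ∃ s : ℕ, (s : ℝ) ≤ C * (∏ j, Real.sqrt (k j)) * (1 + Real.log n) ^ (t + 1) ∧
      ∀ V₁ ⊆ V, ∀ V₂ ⊆ V, (∀ x ∈ V₁, ∀ y ∈ V₂, x < y) → (n : ℝ) ^ 2 * 4 ^ s ≤ V₁.card →
        V₂.Nonempty → ∃ A ⊆ V₁, ∃ B ⊆ V₂, ∃ σ : Fin t → Bool,
          ((V₁.card : ℝ) * V₂.card) / 4 ^ s ≤ A.card * B.card ∧
          ∀ j, K * bd (fun x y => ¬ (R j x y ↔ σ j = true)) A B ≤ A.card * B.card := by
  induction t with
  | zero =>
    refine ⟨1, le_rfl, ?_⟩
    intro n k hn _ _ K _ _ V R _
    refine ⟨0, ?_, ?_⟩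
    · simp only [univ_eq_empty, prod_empty, mul_one, one_mul, Nat.cast_zero]
      have h1 : 0 ≤ Real.log n := Real.log_natCast_nonneg n
      positivity
    · intro V₁ _ V₂ _ _ _ _
      refine ⟨V₁, Subset.refl _, V₂, Subset.refl _, fun _ => true, by simp, fun j => j.elim0⟩
  | succ t ih =>
    obtain ⟨C, hC, ih⟩ := ih
    set C' : ℝ := 6 + b + 1.4 * C with hC'
    have hC'1 : 1 ≤ C' := by
      have : (0 : ℝ) ≤ b := Nat.cast_nonneg b
      linarith
    set C'' : ℝ := 6 + C' + 2 * t with hC''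
    have hC''1 : 1 ≤ C'' := by
      have : (0 : ℝ) ≤ t := Nat.cast_nonneg t
      linarith
    refine ⟨144 * C'' * C' + 1 + C, by nlinarith, ?_⟩
    intro n k hn hk1 hk2 K hK1 hK2 V R hR
    have hnr : (2 : ℝ) ≤ n := by exact_mod_cast hn
    have hlog0 : 0 ≤ Real.log n := Real.log_natCast_nonneg n
    set L := 1 + Real.log n with hL
    have hL1 : 1 ≤ L := by linarith
    set P := ∏ j : Fin t, Real.sqrt (k j.succ) with hP
    have hP1 : 1 ≤ P := by
      rw [hP]
      have : ∏ _j : Fin t, (1 : ℝ) ≤ ∏ j : Fin t, Real.sqrt (k j.succ) := by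
        apply prod_le_prod
        · intro j _
          norm_num
        · intro j _
          apply Real.one_le_sqrt.2
          exact_mod_cast hk1 j.succ
      simpa using this
    have hPn : P ≤ (n : ℝ) ^ t := by
      rw [hP]
      have : ∏ j : Fin t, Real.sqrt (k j.succ) ≤ ∏ _j : Fin t, (n : ℝ) := by
        apply prod_le_prod
        · intro j _
          positivity
        · intro j _
          rw [Real.sqrt_le_left (by positivity)]
          exact_mod_cast hk2 j.succ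
      simpa using this
    obtain ⟨sr, hsr, hrest⟩ := ih n (fun j => k j.succ) hn (fun j => hk1 _) (fun j => hk2 _) K hK1
      hK2 V (fun j => R j.succ) (fun j => hR _)
    have h4s : (1 : ℝ) ≤ 4 ^ sr := one_le_pow₀ (by norm_num)
    set K₁ := K * 4 ^ sr with hK₁
    have hK₁1 : 1 ≤ K₁ := by
      rw [hK₁]
      nlinarith
    obtain ⟨s₁, hs₁, hfirst⟩ := single (hR 0) (hk1 0) hK₁1
    have hk0 : (1 : ℝ) ≤ k 0 := by exact_mod_cast hk1 0
    have hk0n : (k 0 : ℝ) ≤ (n : ℝ) ^ 2 := by exact_mod_cast hk2 0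
    have hLt : L ≤ L ^ (t + 1) := by
      calc L = L ^ 1 := (pow_one L).symm
        _ ≤ L ^ (t + 1) := pow_le_pow_right₀ hL1 (by omega)
    have hLt1 : 1 ≤ L ^ (t + 1) := one_le_pow₀ hL1
    -- logarithms
    set Λ := Real.log (8 * k 0 * (3 * K₁ + 1)) with hΛ
    have hΛ0 : 0 < Λ := Real.log_pos (by nlinarith)
    have hlog2 := Real.log_two_lt_d9
    have hΛle : Λ ≤ C' * (P * L ^ (t + 1)) := by
      have h1 : 8 * (k 0 : ℝ) * (3 * K₁ + 1) ≤ 32 * (k 0 * K₁) := by nlinarith
      have h2 : Λ ≤ Real.log (32 * (k 0 * K₁)) := Real.log_le_log (by positivity) h1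
      rw [Real.log_mul (by norm_num) (by positivity), Real.log_mul (by positivity) (by positivity),
        hK₁, Real.log_mul (by positivity) (by positivity), Real.log_pow] at h2
      have h3 : Real.log 32 = 5 * Real.log 2 := by
        rw [show (32 : ℝ) = 2 ^ 5 by norm_num, Real.log_pow]
        norm_num
      have h4 : Real.log 4 = 2 * Real.log 2 := by
        rw [show (4 : ℝ) = 2 ^ 2 by norm_num, Real.log_pow]
        norm_num
      have h5 : Real.log (k 0) ≤ 2 * Real.log n := by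
        calc Real.log (k 0) ≤ Real.log ((n : ℝ) ^ 2) := Real.log_le_log (by positivity) hk0n
          _ = 2 * Real.log n := by rw [Real.log_pow]; norm_num
      have h6 : Real.log K ≤ b * Real.log n := by
        calc Real.log K ≤ Real.log ((n : ℝ) ^ b) := Real.log_le_log (by positivity) hK2
          _ = b * Real.log n := by rw [Real.log_pow]
      have h7 : (sr : ℝ) * Real.log 4 ≤ 1.4 * (C * P * L ^ (t + 1)) := by
        rw [h4]
        have : 0 ≤ C * P * L ^ (t + 1) := by positivity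
        nlinarith
      have hb0 : (0 : ℝ) ≤ b := Nat.cast_nonneg b
      have h8 : Λ ≤ (6 + b) * L + 1.4 * (C * P * L ^ (t + 1)) := by
        rw [hL]
        nlinarith
      have h9 : (6 + b) * L ≤ (6 + b) * (P * L ^ (t + 1)) := by
        apply mul_le_mul_of_nonneg_left _ (by positivity)
        nlinarith
      rw [hC']
      nlinarith
    have hM : Real.log (8 * k 0 * Λ) ≤ C'' * L := by
      rw [Real.log_mul (by positivity) hΛ0.ne', Real.log_mul (by norm_num) (by positivity)]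
      have h3 : Real.log 8 = 3 * Real.log 2 := by
        rw [show (8 : ℝ) = 2 ^ 3 by norm_num, Real.log_pow]
        norm_num
      have h5 : Real.log (k 0) ≤ 2 * Real.log n := by
        calc Real.log (k 0) ≤ Real.log ((n : ℝ) ^ 2) := Real.log_le_log (by positivity) hk0n
          _ = 2 * Real.log n := by rw [Real.log_pow]; norm_num
      have h6 : Real.log Λ ≤ C' + t * Real.log n + (t + 1) * L := by
        have h7 : Real.log Λ ≤ Real.log (C' * (P * L ^ (t + 1))) := Real.log_le_log hΛ0 hΛle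
        rw [Real.log_mul (by positivity) (by positivity), Real.log_mul (by positivity) (by positivity),
          Real.log_pow] at h7
        have h8 : Real.log C' ≤ C' := by
          have := Real.log_le_sub_one_of_pos (show 0 < C' by linarith)
          linarith
        have h9 : Real.log P ≤ t * Real.log n := by
          calc Real.log P ≤ Real.log ((n : ℝ) ^ t) := Real.log_le_log (by positivity) hPn
            _ = t * Real.log n := by rw [Real.log_pow]
        have h10 : Real.log L ≤ L := by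
          have := Real.log_le_sub_one_of_pos (show 0 < L by linarith)
          linarith
        have h11 : ((t + 1 : ℕ) : ℝ) * Real.log L ≤ (t + 1) * L := by
          push_cast
          exact mul_le_mul_of_nonneg_left h10 (by positivity)
        linarith
      have ht0 : (0 : ℝ) ≤ t := Nat.cast_nonneg t
      have hC'L : C' ≤ C' * L := by nlinarith
      have h12 : (t : ℝ) * Real.log n ≤ t * L := mul_le_mul_of_nonneg_left (by linarith) ht0
      rw [hC'']
      nlinarith
    have hM0 : 0 ≤ C'' * L := by positivity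
    have hsq8 : Real.sqrt (8 * k 0) ≤ 3 * Real.sqrt (k 0) := by
      rw [Real.sqrt_mul (by norm_num)]
      apply mul_le_mul_of_nonneg_right _ (Real.sqrt_nonneg _)
      rw [Real.sqrt_le_left (by norm_num)]
      norm_num
    have hsk : 1 ≤ Real.sqrt (k 0) := Real.one_le_sqrt.2 hk0
    have hs₁' : (s₁ : ℝ) ≤ (144 * C'' * C' + 1) * (Real.sqrt (k 0) * P * L ^ (t + 2)) := by
      have h1 : 48 * Real.log (8 * k 0 * Λ) * Λ * Real.sqrt (8 * k 0) ≤
          48 * (C'' * L) * (C' * (P * L ^ (t + 1))) * (3 * Real.sqrt (k 0)) := by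
        apply mul_le_mul _ hsq8 (Real.sqrt_nonneg _) (by positivity)
        apply mul_le_mul _ hΛle hΛ0.le (by positivity)
        linarith
      have h2 : 48 * (C'' * L) * (C' * (P * L ^ (t + 1))) * (3 * Real.sqrt (k 0)) =
          144 * C'' * C' * (Real.sqrt (k 0) * P * L ^ (t + 2)) := by ring
      have h3 : 1 ≤ Real.sqrt (k 0) * P * L ^ (t + 2) := by
        have h4 : 1 ≤ L ^ (t + 2) := one_le_pow₀ hL1
        have h5 : 1 ≤ Real.sqrt (k 0) * P := by nlinarith
        nlinarith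
      calc (s₁ : ℝ) ≤ 48 * Real.log (8 * k 0 * Λ) * Λ * Real.sqrt (8 * k 0) + 1 := hs₁
        _ ≤ 144 * C'' * C' * (Real.sqrt (k 0) * P * L ^ (t + 2)) +
            Real.sqrt (k 0) * P * L ^ (t + 2) := by rw [← h2]; exact add_le_add h1 h3
        _ = _ := by ring
    refine ⟨s₁ + sr, ?_, ?_⟩
    · rw [Fin.prod_univ_succ]
      push_cast
      have h1 : C * P * L ^ (t + 1) ≤ C * (Real.sqrt (k 0) * P * L ^ (t + 2)) := by
        have h2 : P * L ^ (t + 1) ≤ Real.sqrt (k 0) * P * L ^ (t + 2) := by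
          apply mul_le_mul
          · nlinarith
          · exact pow_le_pow_right₀ hL1 (by omega)
          · positivity
          · positivity
        calc C * P * L ^ (t + 1) = C * (P * L ^ (t + 1)) := by ring
          _ ≤ _ := mul_le_mul_of_nonneg_left h2 (by linarith)
      calc (s₁ : ℝ) + sr ≤ (144 * C'' * C' + 1) * (Real.sqrt (k 0) * P * L ^ (t + 2)) +
            C * (Real.sqrt (k 0) * P * L ^ (t + 2)) := add_le_add hs₁' (hsr.trans h1)
        _ = (144 * C'' * C' + 1 + C) * (Real.sqrt (k 0) * P) * L ^ (t + 1 + 1) := by ring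
    · intro V₁ hV₁ V₂ hV₂ hlt hbig hne₂
      have hpow : (4 : ℝ) ^ (s₁ + sr) = 4 ^ s₁ * 4 ^ sr := pow_add _ _ _
      rw [hpow] at hbig ⊢
      have h4s1 : (1 : ℝ) ≤ 4 ^ s₁ := one_le_pow₀ (by norm_num)
      have hn2 : (0 : ℝ) < (n : ℝ) ^ 2 := by positivity
      have hkV : k 0 ≤ V₁.card := by
        have h1 : (k 0 : ℝ) ≤ V₁.card := by
          calc (k 0 : ℝ) ≤ (n : ℝ) ^ 2 := hk0n
            _ ≤ (n : ℝ) ^ 2 * (4 ^ s₁ * 4 ^ sr) := by
                apply le_mul_of_one_le_right hn2.le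
                nlinarith
            _ ≤ V₁.card := hbig
        exact_mod_cast h1
      obtain ⟨A₁, hA₁, B₁, hB₁, σ₀, h1, h2⟩ := hfirst V₁ hV₁ V₂ hV₂ hlt hkV hne₂
      have hV1pos : (0 : ℝ) < V₁.card := lt_of_lt_of_le (by positivity) hbig
      have hV2pos : (0 : ℝ) < V₂.card := by exact_mod_cast card_pos.2 hne₂
      have hB1c : (B₁.card : ℝ) ≤ V₂.card := by exact_mod_cast card_le_card hB₁
      have hA1big : (n : ℝ) ^ 2 * 4 ^ sr ≤ A₁.card := by
        have h3 : ((V₁.card : ℝ) * V₂.card) / 4 ^ s₁ ≤ A₁.card * V₂.card :=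
          h1.trans (mul_le_mul_of_nonneg_left hB1c (Nat.cast_nonneg _))
        have h4 : ((V₁.card : ℝ) * V₂.card) / 4 ^ s₁ = (V₁.card : ℝ) / 4 ^ s₁ * V₂.card := by ring
        rw [h4] at h3
        have h5 := le_of_mul_le_mul_right h3 hV2pos
        refine le_trans ?_ h5
        rw [le_div_iff₀ (by positivity)]
        linarith
      have hABpos : (0 : ℝ) < A₁.card * B₁.card := lt_of_lt_of_le (by positivity) h1
      have hB1ne : B₁.Nonempty := by
        rw [← card_pos]
        by_contra h3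
        have h4 : B₁.card = 0 := by omega
        rw [h4] at hABpos
        simp at hABpos
      obtain ⟨A, hA, B, hB, σ, h3, h4⟩ := hrest A₁ (hA₁.trans hV₁) B₁ (hB₁.trans hV₂)
        (fun x hx y hy => hlt x (hA₁ hx) y (hB₁ hy)) hA1big hB1ne
      refine ⟨A, hA.trans hA₁, B, hB.trans hB₁, Fin.cons σ₀ σ, ?_, ?_⟩
      · calc ((V₁.card : ℝ) * V₂.card) / (4 ^ s₁ * 4 ^ sr) =
              ((V₁.card : ℝ) * V₂.card) / 4 ^ s₁ / 4 ^ sr := by rw [div_div]
          _ ≤ (A₁.card : ℝ) * B₁.card / 4 ^ sr := div_le_div_of_nonneg_right h1 (by positivity)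
          _ ≤ _ := h3
      · intro j
        refine Fin.cases ?_ (fun j => ?_) j
        · simp only [Fin.cons_zero]
          have h5 : bd (fun x y => ¬ (R 0 x y ↔ σ₀ = true)) A B ≤
              bd (fun x y => ¬ (R 0 x y ↔ σ₀ = true)) A₁ B₁ := bd_mono hA hB
          have h6 : (A₁.card : ℝ) * B₁.card ≤ A.card * B.card * 4 ^ sr := by
            rw [div_le_iff₀ (by positivity)] at h3
            exact h3
          have h7 : K₁ * bd (fun x y => ¬ (R 0 x y ↔ σ₀ = true)) A B ≤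
              A.card * B.card * 4 ^ sr :=
            (mul_le_mul_of_nonneg_left h5 (by linarith)).trans (h2.trans h6)
          rw [hK₁] at h7
          have h8 : K * 4 ^ sr * bd (fun x y => ¬ (R 0 x y ↔ σ₀ = true)) A B =
              (K * bd (fun x y => ¬ (R 0 x y ↔ σ₀ = true)) A B) * 4 ^ sr := by ring
          rw [h8] at h7
          exact le_of_mul_le_mul_right h7 (by positivity)
        · simp only [Fin.cons_succ]
          exact h4 j

end Run7.h64.SR
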