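import Mathlib

/-!
# Random signs: the moment generating function and second moments of linear forms
-/

set_option autoImplicit false

namespace Run7.h64.SR

open Finset

/-- the sign of a bit -/
def sg (b : Bool) : ℝ := if b then 1 else -1

theorem sg_mul_self (b : Bool) : sg b * sg b = 1 := by
  cases b <;> simp [sg]

theorem sg_not (b : Bool) : sg (!b) = - sg b := by
  cases b <;> simp [sg]

/-- the linear form -/
def lf {d : ℕ} (U : Fin d → ℝ) (g : Fin d → Bool) : ℝ := ∑ i, U i * sg (g i)

/-- the mean over all sign vectors -/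
noncomputable def av {d : ℕ} (F : (Fin d → Bool) → ℝ) : ℝ := (∑ g, F g) / 2 ^ d

theorem av_add {d : ℕ} (F G : (Fin d → Bool) → ℝ) : av (fun g => F g + G g) = av F + av G := by
  unfold av
  rw [sum_add_distrib, add_div]

theorem av_sub {d : ℕ} (F G : (Fin d → Bool) → ℝ) : av (fun g => F g - G g) = av F - av G := by
  unfold av
  rw [sum_sub_distrib, sub_div]

theorem av_const {d : ℕ} (c : ℝ) : av (fun _ : Fin d → Bool => c) = c := by
  unfold av
  rw [sum_const, card_univ, Fintype.card_fun, Fintype.card_bool, Fintype.card_fin, nsmul_eq_mul]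
  push_cast
  field_simp

theorem av_mul_left {d : ℕ} (c : ℝ) (F : (Fin d → Bool) → ℝ) :
    av (fun g => c * F g) = c * av F := by
  unfold av
  rw [← mul_sum, mul_div_assoc]

theorem av_mono {d : ℕ} {F G : (Fin d → Bool) → ℝ} (h : ∀ g, F g ≤ G g) : av F ≤ av G := by
  unfold av
  exact div_le_div_of_nonneg_right (sum_le_sum fun g _ => h g) (by positivity)

theorem abs_av_le {d : ℕ} (F : (Fin d → Bool) → ℝ) : |av F| ≤ av (fun g => |F g|) := by
  unfold av
  rw [abs_div, abs_of_pos (show (0 : ℝ) < 2 ^ d by positivity)]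
  exact div_le_div_of_nonneg_right (abs_sum_le_sum_abs _ _) (by positivity)

/-- moment generating function -/
theorem av_exp {d : ℕ} (U : Fin d → ℝ) (θ : ℝ) (h : ∑ i, U i ^ 2 = 1) :
    av (fun g => Real.exp (θ * lf U g)) ≤ Real.exp (θ ^ 2 / 2) := by
  have h1 : ∑ g : Fin d → Bool, Real.exp (θ * lf U g) =
      ∏ i, ∑ b : Bool, Real.exp (θ * (U i * sg b)) := by
    rw [Fintype.prod_sum]
    refine sum_congr rfl fun g _ => ?_
    rw [← Real.exp_sum]
    congr 1
    unfold lf
    rw [mul_sum]
  have h2 : ∀ i, ∑ b : Bool, Real.exp (θ * (U i * sg b)) = 2 * Real.cosh (θ * U i) := by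
    intro i
    rw [Fintype.sum_bool, Real.cosh_eq]
    simp only [sg, if_true, Bool.false_eq_true, if_false, mul_one, mul_neg]
    ring
  unfold av
  rw [h1, div_le_iff₀ (by positivity)]
  simp_rw [h2]
  rw [prod_mul_distrib, prod_const, card_univ, Fintype.card_fin, mul_comm]
  apply mul_le_mul_of_nonneg_right _ (by positivity)
  calc ∏ i, Real.cosh (θ * U i) ≤ ∏ i, Real.exp ((θ * U i) ^ 2 / 2) :=
        prod_le_prod (fun i _ => (Real.cosh_pos _).le) fun i _ => Real.cosh_le_exp_half_sq _
    _ = Real.exp (θ ^ 2 / 2) := by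
        rw [← Real.exp_sum]
        congr 1
        calc ∑ i, (θ * U i) ^ 2 / 2 = θ ^ 2 / 2 * ∑ i, U i ^ 2 := by
              rw [mul_sum]
              exact sum_congr rfl fun i _ => by ring
          _ = _ := by rw [h, mul_one]

/-- flipping a bit -/
def flip {d : ℕ} (i : Fin d) (g : Fin d → Bool) : Fin d → Bool := Function.update g i (!g i)

theorem flip_flip {d : ℕ} (i : Fin d) (g : Fin d → Bool) : flip i (flip i g) = g := by
  unfold flip
  ext j
  by_cases h : j = i
  · subst h
    simp
  · simp [h]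

theorem sum_flip {d : ℕ} (i : Fin d) (F : (Fin d → Bool) → ℝ) : ∑ g, F (flip i g) = ∑ g, F g :=
  Fintype.sum_equiv ⟨flip i, flip i, flip_flip i, flip_flip i⟩ _ _ fun _ => rfl

theorem sum_sg {d : ℕ} (i : Fin d) : ∑ g : Fin d → Bool, sg (g i) = 0 := by
  have h := sum_flip i (fun g => sg (g i))
  have h2 : ∀ g : Fin d → Bool, sg (flip i g i) = - sg (g i) := by
    intro g
    simp [flip, sg_not]
  simp_rw [h2] at h
  rw [sum_neg_distrib] at h
  linarith

theorem sum_sg_sg {d : ℕ} (i j : Fin d) :
    ∑ g : Fin d → Bool, sg (g i) * sg (g j) = if i = j then 2 ^ d else 0 := by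
  split_ifs with hij
  · subst hij
    simp_rw [sg_mul_self]
    simp
  · have h := sum_flip i (fun g => sg (g i) * sg (g j))
    have h2 : ∀ g : Fin d → Bool, sg (flip i g i) * sg (flip i g j) = - (sg (g i) * sg (g j)) := by
      intro g
      have : j ≠ i := fun h => hij h.symm
      simp [flip, sg_not, this]
    simp_rw [h2] at h
    rw [sum_neg_distrib] at h
    linarith

theorem av_lf {d : ℕ} (U : Fin d → ℝ) : av (lf U) = 0 := by
  have : ∑ g, lf U g = 0 := by
    unfold lf
    rw [sum_comm]
    apply sum_eq_zero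
    intro i _
    rw [← mul_sum, sum_sg, mul_zero]
  unfold av
  rw [this, zero_div]

theorem av_lf_lf {d : ℕ} (U V : Fin d → ℝ) : av (fun g => lf U g * lf V g) = ∑ i, U i * V i := by
  have : ∑ g, lf U g * lf V g = 2 ^ d * ∑ i, U i * V i := by
    unfold lf
    simp_rw [sum_mul_sum]
    rw [sum_comm, mul_sum]
    refine sum_congr rfl fun i _ => ?_
    rw [sum_comm]
    calc ∑ j, ∑ g : Fin d → Bool, U i * sg (g i) * (V j * sg (g j))
        = ∑ j, U i * V j * ∑ g : Fin d → Bool, sg (g i) * sg (g j) := by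
          refine sum_congr rfl fun j _ => ?_
          rw [mul_sum]
          exact sum_congr rfl fun g _ => by ring
      _ = U i * V i * 2 ^ d := by
          rw [sum_eq_single i]
          · rw [sum_sg_sg, if_pos rfl]
          · intro j _ hj
            rw [sum_sg_sg, if_neg (Ne.symm hj), mul_zero]
          · simp
      _ = 2 ^ d * (U i * V i) := by ring
  unfold av
  rw [this]
  field_simp

end Run7.h64.SR
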