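import Pool.Agent.Run7.h64.SR.Weight
import Pool.Agent.Run7.h64.SR.Forst

/-!
# Biased rectangles in relations of bounded sign rank
-/

set_option autoImplicit false

namespace Run7.h64.SR

open Finset

/-- from weights to sets, one side -/
theorem exists_set {X : Type*} [Fintype X] (f w : X → ℝ) (h0 : ∀ x, 0 ≤ w x) (h1 : ∀ x, w x ≤ 1) :
    ∃ A : Finset X, ∑ x, f x * w x ≤ ∑ x ∈ A, f x := by
  classical
  refine ⟨univ.filter fun x => 0 < f x, ?_⟩
  rw [sum_filter]
  apply sum_le_sum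
  intro x _
  split_ifs with h
  · exact mul_le_of_le_one_right h.le (h1 x)
  · exact mul_nonpos_of_nonpos_of_nonneg (not_lt.1 h) (h0 x)

/-- from weights to sets -/
theorem exists_sets {X Y : Type*} [Fintype X] [Fintype Y] (M : X → Y → ℝ) (w : X → ℝ) (w' : Y → ℝ)
    (h0 : ∀ x, 0 ≤ w x) (h1 : ∀ x, w x ≤ 1) (h0' : ∀ y, 0 ≤ w' y) (h1' : ∀ y, w' y ≤ 1) :
    ∃ (A : Finset X) (B : Finset Y), ∑ x, ∑ y, M x y * (w x * w' y) ≤ ∑ x ∈ A, ∑ y ∈ B, M x y := by
  obtain ⟨A, hA⟩ := exists_set (fun x => ∑ y, M x y * w' y) w h0 h1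
  obtain ⟨B, hB⟩ := exists_set (fun y => ∑ x ∈ A, M x y) w' h0' h1'
  refine ⟨A, B, ?_⟩
  calc ∑ x, ∑ y, M x y * (w x * w' y) = ∑ x, (∑ y, M x y * w' y) * w x := by
        refine sum_congr rfl fun x _ => ?_
        rw [sum_mul]
        exact sum_congr rfl fun y _ => by ring
    _ ≤ ∑ x ∈ A, ∑ y, M x y * w' y := hA
    _ = ∑ y, (∑ x ∈ A, M x y) * w' y := by
        rw [sum_comm]
        exact sum_congr rfl fun y _ => by rw [sum_mul]
    _ ≤ ∑ y ∈ B, ∑ x ∈ A, M x y := hB
    _ = _ := sum_comm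

open Classical in
/-- the heart of the matter -/
theorem core {X Y : Type*} [Fintype X] [Fintype Y] {d : ℕ} (hd : 1 ≤ d)
    (U : X → Fin d → ℝ) (V : Y → Fin d → ℝ) (hU : ∀ x, ∑ i, U x i ^ 2 = 1)
    (hV : ∀ y, ∑ i, V y i ^ 2 = 1) (G : X → Y → Prop)
    (hpos : ∀ x y, G x y → 0 ≤ ∑ i, U x i * V y i)
    (hneg : ∀ x y, ¬ G x y → ∑ i, U x i * V y i ≤ 0)
    (hsum : (Fintype.card X : ℝ) * Fintype.card Y / (4 * d) ≤
      ∑ x, ∑ y, if G x y then (∑ i, U x i * V y i) ^ 2 else 0)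
    (T K : ℝ) (s : ℕ) (hT : 0 < T) (hT2 : 2 ≤ T ^ 2) (hK : 1 ≤ K)
    (n1 : 12 * Real.exp (-(T ^ 2 / 2)) ≤ 1 / Real.sqrt (8 * d) / (2 * T ^ 2))
    (n2 : 12 * Real.exp (-(T ^ 2 / 2)) * s ≤ 1)
    (n3 : 8 * d * (3 * K + 1) ≤ (1 + 1 / Real.sqrt (8 * d) / (2 * T ^ 2)) ^ s) :
    ∃ (A : Finset X) (B : Finset Y), ((Fintype.card X : ℝ) * Fintype.card Y) / 4 ^ s ≤
      ∑ x ∈ A, ∑ y ∈ B, if G x y then 1 else -K := by
  have hdpos : (0 : ℝ) < d := by exact_mod_cast hd
  set e := 12 * Real.exp (-(T ^ 2 / 2)) with he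
  have he0 : 0 < e := by positivity
  set c0 := 1 / Real.sqrt (8 * d) with hc0
  have hc0pos : 0 < c0 := by positivity
  have hc0sq : c0 ^ 2 = 1 / (8 * d) := by
    rw [hc0, div_pow, one_pow, Real.sq_sqrt (by positivity)]
  let c : X → Y → ℝ := fun x y => ∑ i, U x i * V y i
  have hc1 : ∀ x y, c x y ^ 2 ≤ 1 := by
    intro x y
    have := Finset.sum_mul_sq_le_sq_mul_sq univ (U x) (V y)
    rw [hU, hV, one_mul] at this
    exact this
  let α : X → Y → ℝ := fun x y => av (fun g => clp T (lf (U x) g) * clp T (lf (V y) g))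
  have hα0 : ∀ x y, 0 ≤ α x y := by
    intro x y
    have h1 : av (fun _ : Fin d → Bool => (0 : ℝ)) ≤ α x y :=
      av_mono fun g => mul_nonneg (clp_nonneg _ _) (clp_nonneg _ _)
    rwa [av_const] at h1
  have hα : ∀ x y, |4 * α x y - (1 + c x y / T ^ 2)| ≤ e := by
    intro x y
    have h1 := av_clp_clp (U x) (V y) (hU x) (hV y) hT hT2
    have h2 : 4 * α x y - (1 + c x y / T ^ 2) = 4 * (α x y - (1 + c x y / T ^ 2) / 4) := by ring
    rw [h2, abs_mul, abs_of_pos (show (0 : ℝ) < 4 by norm_num)]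
    have h3 : |α x y - (1 + c x y / T ^ 2) / 4| ≤ 3 * Real.exp (-(T ^ 2 / 2)) := h1
    rw [he]
    linarith
  -- the pointwise bound
  have key : ∀ x y, -(6 * K + 1) + 8 * d * (3 * K + 1) * (if G x y then c x y ^ 2 else 0) ≤
      (if G x y then 1 else -K) * (4 * α x y) ^ s := by
    intro x y
    have hb := abs_le.1 (hα x y)
    have h4 : 0 ≤ 4 * α x y := by
      have := hα0 x y
      linarith
    by_cases hG : G x y
    · rw [if_pos hG, if_pos hG, one_mul]
      rcases le_or_gt c0 (c x y) with hc | hc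
      · have h5 : c0 / T ^ 2 ≤ c x y / T ^ 2 := div_le_div_of_nonneg_right hc (by positivity)
        have h6 : c0 / T ^ 2 = 2 * (c0 / (2 * T ^ 2)) := by
          field_simp
        have h7 : 1 + c0 / (2 * T ^ 2) ≤ 4 * α x y := by
          have := hb.1
          linarith
        have h8 : (1 + c0 / (2 * T ^ 2)) ^ s ≤ (4 * α x y) ^ s :=
          pow_le_pow_left₀ (by positivity) h7 s
        have h9 : 8 * d * (3 * K + 1) * c x y ^ 2 ≤ 8 * d * (3 * K + 1) * 1 :=
          mul_le_mul_of_nonneg_left (hc1 x y) (by positivity)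
        linarith
      · have h5 : c x y ^ 2 ≤ c0 ^ 2 := pow_le_pow_left₀ (hpos x y hG) hc.le 2
        rw [hc0sq] at h5
        have h6 : 8 * d * (3 * K + 1) * c x y ^ 2 ≤ 8 * d * (3 * K + 1) * (1 / (8 * d)) :=
          mul_le_mul_of_nonneg_left h5 (by positivity)
        have h7 : 8 * (d : ℝ) * (3 * K + 1) * (1 / (8 * d)) = 3 * K + 1 := by
          field_simp
        have h8 : 0 ≤ (4 * α x y) ^ s := pow_nonneg h4 s
        linarith
    · rw [if_neg hG, if_neg hG, mul_zero, add_zero]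
      have h5 : c x y / T ^ 2 ≤ 0 := div_nonpos_of_nonpos_of_nonneg (hneg x y hG) (by positivity)
      have h6 : 4 * α x y ≤ 1 + e := by
        have := hb.2
        linarith
      have h7 : (4 * α x y) ^ s ≤ 3 := by
        calc (4 * α x y) ^ s ≤ (1 + e) ^ s := pow_le_pow_left₀ h4 h6 s
          _ ≤ (Real.exp e) ^ s := by
              apply pow_le_pow_left₀ (by positivity)
              have := Real.add_one_le_exp e
              linarith
          _ = Real.exp (e * s) := by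
              rw [← Real.exp_nat_mul]
              congr 1
              ring
          _ ≤ Real.exp 1 := Real.exp_le_exp.2 n2
          _ ≤ 3 := by
              have := Real.exp_one_lt_d9
              linarith
      nlinarith
  have htot : (Fintype.card X : ℝ) * Fintype.card Y ≤
      ∑ x, ∑ y, (if G x y then 1 else -K) * (4 * α x y) ^ s := by
    have h1 : ∑ x, ∑ y, (-(6 * K + 1) + 8 * d * (3 * K + 1) * (if G x y then c x y ^ 2 else 0)) ≤
        ∑ x, ∑ y, (if G x y then 1 else -K) * (4 * α x y) ^ s :=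
      sum_le_sum fun x _ => sum_le_sum fun y _ => key x y
    refine le_trans ?_ h1
    simp_rw [sum_add_distrib, ← mul_sum, sum_const, card_univ, nsmul_eq_mul]
    have h2 : 8 * d * (3 * K + 1) * ((Fintype.card X : ℝ) * Fintype.card Y / (4 * d)) ≤
        8 * d * (3 * K + 1) * ∑ x, ∑ y, (if G x y then c x y ^ 2 else 0) :=
      mul_le_mul_of_nonneg_left hsum (by positivity)
    have h3 : 8 * (d : ℝ) * (3 * K + 1) * ((Fintype.card X : ℝ) * Fintype.card Y / (4 * d)) =
        (6 * K + 2) * ((Fintype.card X : ℝ) * Fintype.card Y) := by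
      field_simp
      ring
    rw [h3] at h2
    linarith
  -- independent copies
  let w : X → (Fin s → Fin d → Bool) → ℝ := fun x g => ∏ l, clp T (lf (U x) (g l))
  let w' : Y → (Fin s → Fin d → Bool) → ℝ := fun y g => ∏ l, clp T (lf (V y) (g l))
  have hww : ∀ x y, ∑ g : Fin s → Fin d → Bool, w x g * w' y g = (2 ^ d) ^ s / 4 ^ s *
      (4 * α x y) ^ s := by
    intro x y
    have h1 : ∑ g : Fin s → Fin d → Bool, w x g * w' y g =
        (∑ g : Fin d → Bool, clp T (lf (U x) g) * clp T (lf (V y) g)) ^ s := by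
      rw [Fintype.sum_pow]
      refine sum_congr rfl fun g _ => ?_
      rw [← prod_mul_distrib]
    have h2 : ∑ g : Fin d → Bool, clp T (lf (U x) g) * clp T (lf (V y) g) = 2 ^ d * α x y := by
      show _ = 2 ^ d * av (fun g => clp T (lf (U x) g) * clp T (lf (V y) g))
      unfold av
      field_simp
    rw [h1, h2, mul_pow, mul_pow]
    field_simp
  have hsumg : ∑ g : Fin s → Fin d → Bool, ((Fintype.card X : ℝ) * Fintype.card Y) / 4 ^ s ≤
      ∑ g : Fin s → Fin d → Bool, ∑ x, ∑ y, (if G x y then 1 else -K) * (w x g * w' y g) := by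
    have h1 : ∑ g : Fin s → Fin d → Bool, ∑ x, ∑ y, (if G x y then 1 else -K) * (w x g * w' y g) =
        (2 ^ d) ^ s / 4 ^ s * ∑ x, ∑ y, (if G x y then 1 else -K) * (4 * α x y) ^ s := by
      rw [sum_comm, mul_sum]
      refine sum_congr rfl fun x _ => ?_
      rw [sum_comm, mul_sum]
      refine sum_congr rfl fun y _ => ?_
      rw [← mul_sum, hww]
      ring
    rw [h1, sum_const, card_univ, Fintype.card_fun, Fintype.card_fun, Fintype.card_bool,
      Fintype.card_fin, Fintype.card_fin, nsmul_eq_mul]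
    push_cast
    calc ((2 : ℝ) ^ d) ^ s * ((Fintype.card X : ℝ) * Fintype.card Y / 4 ^ s)
        = (2 ^ d) ^ s / 4 ^ s * ((Fintype.card X : ℝ) * Fintype.card Y) := by ring
      _ ≤ _ := mul_le_mul_of_nonneg_left htot (by positivity)
  obtain ⟨g, -, hg⟩ := exists_le_of_sum_le univ_nonempty hsumg
  obtain ⟨A, B, hAB⟩ := exists_sets (fun x y => if G x y then (1 : ℝ) else -K) (fun x => w x g)
    (fun y => w' y g)
    (fun x => prod_nonneg fun l _ => clp_nonneg _ _)
    (fun x => prod_le_one (fun l _ => clp_nonneg _ _) fun l _ => clp_le_one _ _)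
    (fun y => prod_nonneg fun l _ => clp_nonneg _ _)
    (fun y => prod_le_one (fun l _ => clp_nonneg _ _) fun l _ => clp_le_one _ _)
  exact ⟨A, B, hg.trans hAB⟩

open Classical in
/-- Biased rectangles. -/
theorem rect {N d : ℕ} {Y : Type*} [Fintype Y] [Nonempty Y] (hN : 0 < N) (hd : d ≤ N)
    (hd1 : 1 ≤ d) (u : Fin N → Fin d → ℝ) (v : Y → Fin d → ℝ)
    (hne : ∀ x y, ∑ i, u x i * v y i ≠ 0)
    (T K : ℝ) (s : ℕ) (hT : 0 < T) (hT2 : 2 ≤ T ^ 2) (hK : 1 ≤ K)
    (n1 : 12 * Real.exp (-(T ^ 2 / 2)) ≤ 1 / Real.sqrt (8 * d) / (2 * T ^ 2))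
    (n2 : 12 * Real.exp (-(T ^ 2 / 2)) * s ≤ 1)
    (n3 : 8 * d * (3 * K + 1) ≤ (1 + 1 / Real.sqrt (8 * d) / (2 * T ^ 2)) ^ s) :
    ∃ (A : Finset (Fin N)) (B : Finset Y) (σ : Bool), ((N : ℝ) * Fintype.card Y) / 4 ^ s ≤
      ∑ x ∈ A, ∑ y ∈ B, if (0 < ∑ i, u x i * v y i ↔ σ = true) then 1 else -K := by
  obtain ⟨U, V, hU, hV, hs, hV2⟩ := exists_units hN hd hd1 u v hne
  have hdpos : (0 : ℝ) < d := by exact_mod_cast hd1
  have hs' : ∀ x y, (0 < ∑ i, u x i * v y i → 0 < ∑ i, U x i * V y i) ∧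
      (¬ 0 < ∑ i, u x i * v y i → ∑ i, U x i * V y i < 0) := by
    intro x y
    have h1 : 0 < (∑ i, u x i * v y i) * ∑ i, U x i * V y i := hs x y
    constructor
    · intro h
      exact (mul_pos_iff_of_pos_left h).1 h1
    · intro h
      have h2 : ∑ i, u x i * v y i < 0 := lt_of_le_of_ne (not_lt.1 h) (hne x y)
      by_contra h3
      have := mul_nonpos_of_nonpos_of_nonneg h2.le (not_lt.1 h3)
      linarith
  have htot : (N : ℝ) * Fintype.card Y / (2 * d) ≤ ∑ x, ∑ y, (∑ i, U x i * V y i) ^ 2 := by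
    rw [sum_comm]
    calc (N : ℝ) * Fintype.card Y / (2 * d) = ∑ y : Y, (N : ℝ) / (2 * d) := by
          rw [sum_const, card_univ, nsmul_eq_mul]
          ring
      _ ≤ _ := sum_le_sum fun y _ => hV2 y
  have hsplit : ∑ x, ∑ y, (∑ i, U x i * V y i) ^ 2 =
      (∑ x, ∑ y, if 0 < ∑ i, u x i * v y i then (∑ i, U x i * V y i) ^ 2 else 0) +
      ∑ x, ∑ y, if ¬ 0 < ∑ i, u x i * v y i then (∑ i, U x i * V y i) ^ 2 else 0 := by
    rw [← sum_add_distrib]
    refine sum_congr rfl fun x _ => ?_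
    rw [← sum_add_distrib]
    refine sum_congr rfl fun y _ => ?_
    by_cases h : 0 < ∑ i, u x i * v y i
    · simp [h]
    · simp [h]
  have h2 : (N : ℝ) * Fintype.card Y / (2 * d) = N * Fintype.card Y / (4 * d) +
      N * Fintype.card Y / (4 * d) := by
    field_simp
    ring
  rcases le_or_gt ((N : ℝ) * Fintype.card Y / (4 * d))
    (∑ x, ∑ y, if 0 < ∑ i, u x i * v y i then (∑ i, U x i * V y i) ^ 2 else 0) with h | h
  · obtain ⟨A, B, hAB⟩ := core hd1 U V hU hV (fun x y => 0 < ∑ i, u x i * v y i)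
      (fun x y hxy => ((hs' x y).1 hxy).le) (fun x y hxy => ((hs' x y).2 hxy).le)
      (by rw [Fintype.card_fin]; exact h) T K s hT hT2 hK n1 n2 n3
    refine ⟨A, B, true, ?_⟩
    rw [Fintype.card_fin] at hAB
    simpa using hAB
  · have h3 : (N : ℝ) * Fintype.card Y / (4 * d) ≤
        ∑ x, ∑ y, if ¬ 0 < ∑ i, u x i * v y i then (∑ i, U x i * V y i) ^ 2 else 0 := by
      linarith
    obtain ⟨A, B, hAB⟩ := core hd1 U (fun y i => - V y i) hU
      (fun y => by simpa using hV y) (fun x y => ¬ 0 < ∑ i, u x i * v y i)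
      (fun x y hxy => by
        have := (hs' x y).2 hxy
        simp only [mul_neg, sum_neg_distrib]
        linarith)
      (fun x y hxy => by
        have := (hs' x y).1 (not_not.1 hxy)
        simp only [mul_neg, sum_neg_distrib]
        linarith)
      (by
        rw [Fintype.card_fin]
        simp only [mul_neg, sum_neg_distrib, neg_sq]
        exact h3) T K s hT hT2 hK n1 n2 n3
    refine ⟨A, B, false, ?_⟩
    rw [Fintype.card_fin] at hAB
    simpa using hAB

end Run7.h64.SR
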