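import Pool.Agent.Run7.h64.SR.Rad

/-!
# Truncated linear weights and their correlation
-/

set_option autoImplicit false

namespace Run7.h64.SR

open Finset

/-- the truncated weight -/
noncomputable def clp (T t : ℝ) : ℝ := max 0 (min 1 ((1 + t / T) / 2))

theorem clp_nonneg (T t : ℝ) : 0 ≤ clp T t := le_max_left _ _

theorem clp_le_one (T t : ℝ) : clp T t ≤ 1 := max_le zero_le_one (min_le_left _ _)

theorem clp_diff {T : ℝ} (hT : 0 < T) (hT2 : 2 ≤ T ^ 2) (t : ℝ) :
    |clp T t - (1 + t / T) / 2| ≤ 1 / 2 * Real.exp (T * |t| - T ^ 2) ∧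
    (clp T t - (1 + t / T) / 2) ^ 2 ≤ 1 / 4 * Real.exp (T * |t| - T ^ 2) := by
  have key : ∀ y : ℝ, 1 < y → (y - 1 ≤ Real.exp (T ^ 2 * (y - 1))) ∧
      (y - 1) ^ 2 ≤ Real.exp (T ^ 2 * (y - 1)) := by
    intro y hy
    have h1 : y - 1 ≤ Real.exp (y - 1) := by
      have := Real.add_one_le_exp (y - 1)
      linarith
    have h2 : Real.exp (2 * (y - 1)) ≤ Real.exp (T ^ 2 * (y - 1)) := by
      apply Real.exp_le_exp.2
      nlinarith
    have h3 : Real.exp (y - 1) ≤ Real.exp (2 * (y - 1)) := by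
      apply Real.exp_le_exp.2
      linarith
    refine ⟨h1.trans (h3.trans h2), le_trans ?_ h2⟩
    have h4 : Real.exp (2 * (y - 1)) = Real.exp (y - 1) ^ 2 := by
      rw [← Real.exp_nat_mul]
      norm_num
    rw [h4]
    exact pow_le_pow_left₀ (by linarith) h1 2
  rcases le_or_gt |t| T with h | h
  · have h1 : -T ≤ t := (abs_le.1 h).1
    have h2 : t ≤ T := (abs_le.1 h).2
    have h3 : clp T t = (1 + t / T) / 2 := by
      unfold clp
      have e1 : t / T ≤ 1 := by rw [div_le_one hT]; exact h2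
      have e2 : -1 ≤ t / T := by rw [le_div_iff₀ hT]; linarith
      rw [min_eq_right (by linarith), max_eq_right (by linarith)]
    rw [h3, sub_self]
    simp only [abs_zero]
    constructor
    · positivity
    · have : (0 : ℝ) ^ 2 = 0 := by norm_num
      rw [this]
      positivity
  · set y := |t| / T with hy
    have hy1 : 1 < y := by rw [hy, one_lt_div hT]; exact h
    have he : T * |t| - T ^ 2 = T ^ 2 * (y - 1) := by
      rw [hy]
      field_simp
    obtain ⟨k1, k2⟩ := key y hy1
    rw [← he] at k1 k2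
    have habs : |clp T t - (1 + t / T) / 2| = (y - 1) / 2 := by
      rcases le_or_gt 0 t with h0 | h0
      · have e1 : t / T = y := by rw [hy, abs_of_nonneg h0]
        have e2 : clp T t = 1 := by
          unfold clp
          rw [e1, min_eq_left (by linarith), max_eq_right (by norm_num)]
        rw [e2, e1, abs_of_nonpos (by linarith)]
        ring
      · have e1 : t / T = -y := by rw [hy, abs_of_neg h0]; ring
        have e2 : clp T t = 0 := by
          unfold clp
          rw [e1, min_eq_right (by linarith), max_eq_left (by linarith)]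
        rw [e2, e1, abs_of_nonneg (by linarith)]
        ring
    constructor
    · rw [habs]
      linarith
    · rw [← sq_abs, habs]
      nlinarith

theorem exp_abs_le (T t : ℝ) : Real.exp (T * |t|) ≤ Real.exp (T * t) + Real.exp (-T * t) := by
  rcases le_or_gt 0 t with h0 | h0
  · rw [abs_of_nonneg h0]
    have := Real.exp_pos (-T * t)
    linarith
  · rw [abs_of_neg h0]
    have := Real.exp_pos (T * t)
    have e : T * -t = -T * t := by ring
    rw [e]
    linarith

theorem av_exp_abs {d : ℕ} (U : Fin d → ℝ) (hU : ∑ i, U i ^ 2 = 1) (T : ℝ) :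
    av (fun g => Real.exp (T * |lf U g| - T ^ 2)) ≤ 2 * Real.exp (-(T ^ 2 / 2)) := by
  have h1 : av (fun g => Real.exp (T * |lf U g| - T ^ 2)) ≤
      av (fun g => Real.exp (-(T ^ 2)) * (Real.exp (T * lf U g) + Real.exp (-T * lf U g))) := by
    apply av_mono
    intro g
    rw [sub_eq_neg_add, Real.exp_add]
    exact mul_le_mul_of_nonneg_left (exp_abs_le _ _) (Real.exp_pos _).le
  refine h1.trans ?_
  rw [av_mul_left, av_add]
  have h2 := av_exp U T hU
  have h3 := av_exp U (-T) hU
  have h4 : (-T) ^ 2 = T ^ 2 := by ring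
  rw [h4] at h3
  calc Real.exp (-(T ^ 2)) * (av (fun g => Real.exp (T * lf U g)) +
        av (fun g => Real.exp (-T * lf U g)))
      ≤ Real.exp (-(T ^ 2)) * (Real.exp (T ^ 2 / 2) + Real.exp (T ^ 2 / 2)) :=
        mul_le_mul_of_nonneg_left (add_le_add h2 h3) (Real.exp_pos _).le
    _ = 2 * (Real.exp (-(T ^ 2)) * Real.exp (T ^ 2 / 2)) := by ring
    _ = 2 * Real.exp (-(T ^ 2 / 2)) := by
        rw [← Real.exp_add]
        congr 2
        ring

/-- the correlation of the truncated weights -/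
theorem av_clp_clp {d : ℕ} (U V : Fin d → ℝ) (hU : ∑ i, U i ^ 2 = 1) (hV : ∑ i, V i ^ 2 = 1)
    {T : ℝ} (hT : 0 < T) (hT2 : 2 ≤ T ^ 2) :
    |av (fun g => clp T (lf U g) * clp T (lf V g)) - (1 + (∑ i, U i * V i) / T ^ 2) / 4| ≤
      3 * Real.exp (-(T ^ 2 / 2)) := by
  have h0 : av (fun g => (1 + lf U g / T) / 2 * ((1 + lf V g / T) / 2)) =
      (1 + (∑ i, U i * V i) / T ^ 2) / 4 := by
    have e1 : (fun g => (1 + lf U g / T) / 2 * ((1 + lf V g / T) / 2)) =
        fun g => (1 / 4 + (1 / (4 * T)) * lf U g) + ((1 / (4 * T)) * lf V g +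
          (1 / (4 * T ^ 2)) * (lf U g * lf V g)) := by
      funext g
      field_simp
      ring
    rw [e1, av_add, av_add, av_add, av_const, av_mul_left, av_mul_left, av_mul_left, av_lf, av_lf,
      av_lf_lf]
    field_simp
    ring
  rw [← h0, ← av_sub]
  refine (abs_av_le _).trans ?_
  have h1 : ∀ g : Fin d → Bool, |clp T (lf U g) * clp T (lf V g) -
      (1 + lf U g / T) / 2 * ((1 + lf V g / T) / 2)| ≤
      (5 / 8) * Real.exp (T * |lf U g| - T ^ 2) + (5 / 8) * Real.exp (T * |lf V g| - T ^ 2) := by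
    intro g
    obtain ⟨a1, a2⟩ := clp_diff hT hT2 (lf U g)
    obtain ⟨b1, b2⟩ := clp_diff hT hT2 (lf V g)
    set p := clp T (lf U g) with hp
    set q := clp T (lf V g) with hq
    set p0 := (1 + lf U g / T) / 2 with hp0
    set q0 := (1 + lf V g / T) / 2 with hq0
    have hp1 : 0 ≤ p := clp_nonneg _ _
    have hp2 : p ≤ 1 := clp_le_one _ _
    have hq1 : 0 ≤ q := clp_nonneg _ _
    have hq2 : q ≤ 1 := clp_le_one _ _
    have e : p * q - p0 * q0 = p * (q - q0) + q * (p - p0) - (p - p0) * (q - q0) := by ring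
    rw [e]
    have s1 : |p * (q - q0)| ≤ |q - q0| := by
      rw [abs_mul, abs_of_nonneg hp1]
      exact mul_le_of_le_one_left (abs_nonneg _) hp2
    have s2 : |q * (p - p0)| ≤ |p - p0| := by
      rw [abs_mul, abs_of_nonneg hq1]
      exact mul_le_of_le_one_left (abs_nonneg _) hq2
    have s3 : |(p - p0) * (q - q0)| ≤ ((p - p0) ^ 2 + (q - q0) ^ 2) / 2 := by
      rw [abs_mul]
      have := sq_nonneg (|p - p0| - |q - q0|)
      nlinarith [sq_abs (p - p0), sq_abs (q - q0)]
    have s4 : |p * (q - q0) + q * (p - p0) - (p - p0) * (q - q0)| ≤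
        |p * (q - q0)| + |q * (p - p0)| + |(p - p0) * (q - q0)| := by
      refine (abs_sub _ _).trans ?_
      have := abs_add_le (p * (q - q0)) (q * (p - p0))
      linarith
    linarith
  refine (av_mono h1).trans ?_
  rw [av_add, av_mul_left, av_mul_left]
  have h2 := av_exp_abs U hU T
  have h3 := av_exp_abs V hV T
  have h4 := Real.exp_pos (-(T ^ 2 / 2))
  linarith

end Run7.h64.SR
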